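import Pool.Agent.Work.MP_a2bf38_gt.Fu.TFlow
import Pool.Agent.Work.MP_a2bf38_gt.H.Setup

section

/-!
# The parabolic maximum principle on `[0, t'] × E`, with a barrier
-/

namespace Pool.Agent.ToricKRF

open scoped ContDiff
open Set Filter Topology

section Line

variable {F : Type*} [NormedAddCommGroup F] [NormedSpace ℝ F]

theorem hasDerivAt_line' (p v : F) (s : ℝ) : HasDerivAt (fun s : ℝ => p + s • v) v s := by
  simpa using ((hasDerivAt_id s).smul_const v).const_add p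

theorem line_facts {u : F → ℝ} {p : F} (v : F) (hu : ContDiffAt ℝ 2 u p) :
    ContDiffAt ℝ 2 (fun s : ℝ => u (p + s • v)) 0 ∧
    deriv (fun s : ℝ => u (p + s • v)) 0 = fderiv ℝ u p v ∧
    deriv (deriv (fun s : ℝ => u (p + s • v))) 0 = fderiv ℝ (fun q => fderiv ℝ u q v) p v := by
  have hline : ContDiffAt ℝ 2 (fun s : ℝ => p + s • v) 0 := by fun_prop
  have hu0 : ContDiffAt ℝ 2 u (p + (0:ℝ) • v) := by simpa using hu
  have hev : ∀ᶠ q in 𝓝 p, DifferentiableAt ℝ u q := by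
    have := hu.eventually (by simp)
    exact this.mono fun q hq => hq.differentiableAt (by norm_num)
  have hct : Tendsto (fun s : ℝ => p + s • v) (𝓝 0) (𝓝 p) := by
    have := (hasDerivAt_line' p v 0).continuousAt.tendsto
    simpa using this
  have hev' : ∀ᶠ s : ℝ in 𝓝 0, HasDerivAt (fun s : ℝ => u (p + s • v))
      (fderiv ℝ u (p + s • v) v) s := by
    filter_upwards [hct.eventually hev] with s hs
    exact hs.hasFDerivAt.comp_hasDerivAt s (hasDerivAt_line' p v s)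
  refine ⟨hu0.comp 0 hline, ?_, ?_⟩
  · have := hev'.self_of_nhds.deriv
    simpa using this
  · have h1 : deriv (fun s : ℝ => u (p + s • v)) =ᶠ[𝓝 0] fun s => fderiv ℝ u (p + s • v) v :=
      hev'.mono fun s hs => hs.deriv
    rw [h1.deriv_eq]
    have hd : DifferentiableAt ℝ (fun q => fderiv ℝ u q v) p := by
      have h2 : ContDiffAt ℝ 1 (fderiv ℝ u) p := hu.fderiv_right (by norm_num)
      exact (h2.differentiableAt (by norm_num)).clm_apply (differentiableAt_const v)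
    have hd' : HasFDerivAt (fun q => fderiv ℝ u q v)
        (fderiv ℝ (fun q => fderiv ℝ u q v) p) (p + (0:ℝ) • v) := by
      simpa using hd.hasFDerivAt
    exact (hd'.comp_hasDerivAt (0:ℝ) (hasDerivAt_line' p v 0)).deriv

end Line

/-- The second derivative is nonpositive at a local maximum. -/
theorem deriv_deriv_nonpos_of_isLocalMax {g : ℝ → ℝ} {a : ℝ} (hg : ContDiffAt ℝ 2 g a)
    (hm : IsLocalMax g a) : deriv (deriv g) a ≤ 0 := by
  by_contra h
  push Not at h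
  have h0 : deriv g a = 0 := hm.deriv_eq_zero
  have hmin : IsLocalMin g a := isLocalMin_of_deriv_deriv_pos h h0 hg.continuousAt
  have hc : g =ᶠ[𝓝 a] fun _ => g a := by
    filter_upwards [hm, hmin] with x h1 h2
    exact le_antisymm h1 h2
  have h1 : deriv g =ᶠ[𝓝 a] fun _ => 0 := by
    filter_upwards [hc.eventuallyEq_nhds] with x hx
    rw [hx.deriv_eq]; simp
  rw [h1.deriv_eq] at h
  simp at h

/-- The derivative is nonnegative at a point where `g` is maximal on the left. -/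
theorem deriv_nonneg_of_left_max {g : ℝ → ℝ} {a c : ℝ} (hca : c < a)
    (hg : DifferentiableAt ℝ g a) (hm : ∀ s ∈ Ioc c a, g s ≤ g a) : 0 ≤ deriv g a := by
  have h1 := hg.hasDerivAt.hasDerivWithinAt (s := Iio a)
  rw [hasDerivWithinAt_iff_tendsto_slope' (by simp)] at h1
  refine ge_of_tendsto h1 ?_
  have : ∀ᶠ s in 𝓝[<] a, s ∈ Ioo c a := Ioo_mem_nhdsLT hca
  filter_upwards [this] with s hs
  rw [slope_def_field]
  have h2 := hm s ⟨hs.1, hs.2.le⟩
  apply div_nonneg_of_nonpos <;> linarith [hs.2]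

variable {E : Type*} [NormedAddCommGroup E] [NormedSpace ℝ E] [ProperSpace E]

/-- **Maximum principle** on the slab `[0, t'] × E`. -/
theorem max_principle_gen {u : ℝ × E → ℝ} {U : Set (ℝ × E)} (hU : IsOpen U) {t' K : ℝ}
    (hsub : Icc 0 t' ×ˢ univ ⊆ U) (hu : ContDiffOn ℝ 2 u U)
    (hb : ∀ c, K < c → Bornology.IsBounded {p : ℝ × E | p ∈ Icc 0 t' ×ˢ univ ∧ c ≤ u p})
    (h0 : ∀ x, u (0, x) ≤ K)
    (hcrit : ∀ t ∈ Ioc 0 t', ∀ x, (∀ w, fderiv ℝ u (t, x) (0, w) = 0) →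
      (∀ w, fderiv ℝ (fun q => fderiv ℝ u q (0, w)) (t, x) (0, w) ≤ 0) →
      0 ≤ fderiv ℝ u (t, x) (1, 0) → u (t, x) ≤ K) :
    ∀ t ∈ Icc 0 t', ∀ x, u (t, x) ≤ K := by
  by_contra hcon
  push Not at hcon
  obtain ⟨t₁, ht₁, x₁, hx₁⟩ := hcon
  set S : Set (ℝ × E) := {p : ℝ × E | p ∈ Icc 0 t' ×ˢ univ ∧ u (t₁, x₁) ≤ u p} with hS
  have hclosed : IsClosed S := by
    have hcl : IsClosed (Icc (0:ℝ) t' ×ˢ (univ : Set E)) := isClosed_Icc.prod isClosed_univ
    have hcont : ContinuousOn u (Icc (0:ℝ) t' ×ˢ (univ : Set E)) := hu.continuousOn.mono hsub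
    have := hcont.preimage_isClosed_of_isClosed hcl (isClosed_Ici (a := u (t₁, x₁)))
    have hEq : S = Icc (0:ℝ) t' ×ˢ (univ : Set E) ∩ u ⁻¹' Ici (u (t₁, x₁)) := rfl
    rw [hEq]; exact this
  have hcomp : IsCompact S := Metric.isCompact_of_isClosed_isBounded hclosed (hb _ hx₁)
  have hne : S.Nonempty := ⟨(t₁, x₁), ⟨⟨ht₁, mem_univ _⟩, le_rfl⟩⟩
  obtain ⟨p, hpS, hpmax⟩ := hcomp.exists_isMaxOn hne
    (hu.continuousOn.mono fun q hq => hsub hq.1)
  obtain ⟨t, x⟩ := p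
  have htI : t ∈ Icc 0 t' := hpS.1.1
  have hbig : K < u (t, x) := lt_of_lt_of_le hx₁ hpS.2
  have hmax : ∀ s ∈ Icc 0 t', ∀ y, u (s, y) ≤ u (t, x) := by
    intro s hs y
    by_cases h : u (t₁, x₁) ≤ u (s, y)
    · exact hpmax (show (s, y) ∈ S from ⟨⟨hs, mem_univ _⟩, h⟩)
    · push Not at h
      exact h.le.trans hpS.2
  have htpos : 0 < t := by
    rcases htI.1.eq_or_lt with h | h
    · exfalso
      rw [← h] at hbig
      exact absurd (h0 x) (not_le.mpr hbig)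
    · exact h
  have hpU : (t, x) ∈ U := hsub ⟨htI, mem_univ _⟩
  have hcd : ContDiffAt ℝ 2 u (t, x) := hu.contDiffAt (hU.mem_nhds hpU)
  refine absurd (hcrit t ⟨htpos, htI.2⟩ x ?_ ?_ ?_) (not_le.mpr hbig)
  · intro w
    obtain ⟨h1, h2, h3⟩ := line_facts ((0 : ℝ), w) hcd
    rw [← h2]
    apply IsLocalMax.deriv_eq_zero
    refine Eventually.of_forall fun s => ?_
    simpa using hmax t htI (x + s • w)
  · intro w
    obtain ⟨h1, h2, h3⟩ := line_facts ((0 : ℝ), w) hcd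
    rw [← h3]
    apply deriv_deriv_nonpos_of_isLocalMax h1
    refine Eventually.of_forall fun s => ?_
    simpa using hmax t htI (x + s • w)
  · obtain ⟨h1, h2, h3⟩ := line_facts ((1 : ℝ), (0 : E)) hcd
    rw [← h2]
    apply deriv_nonneg_of_left_max (c := -t) (by linarith) (h1.differentiableAt (by norm_num))
    intro s hs
    have : t + s ∈ Icc 0 t' := ⟨by linarith [hs.1], by linarith [hs.2, htI.2]⟩
    simpa using hmax (t + s) this x

/-- **Maximum principle with a barrier** `b`. -/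
theorem max_principle_barrier_gen {u : ℝ × E → ℝ} {U : Set (ℝ × E)} (hU : IsOpen U) {t' K : ℝ}
    (hsub : Icc 0 t' ×ˢ univ ⊆ U) (hu : ContDiffOn ℝ 2 u U)
    {b : E → ℝ} (hb : ContDiff ℝ 2 b) (hb0 : ∀ x, 0 ≤ b x)
    (hbp : Tendsto b (cocompact E) atTop)
    (hbd : ∃ M, ∀ t ∈ Icc 0 t', ∀ x, u (t, x) ≤ M)
    (h0 : ∀ x, u (0, x) ≤ K)
    (hcrit : ∃ C, ∀ ε ∈ Ioc (0:ℝ) 1, ∀ t ∈ Ioc 0 t', ∀ x,
      (∀ w, fderiv ℝ u (t, x) (0, w) = ε * fderiv ℝ b x w) →
      (∀ w, fderiv ℝ (fun q => fderiv ℝ u q (0, w)) (t, x) (0, w) ≤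
        ε * fderiv ℝ (fun y => fderiv ℝ b y w) x w) →
      K < u (t, x) → fderiv ℝ u (t, x) (1, 0) ≤ C * ε) :
    ∀ t ∈ Icc 0 t', ∀ x, u (t, x) ≤ K := by
  obtain ⟨M, hM⟩ := hbd
  obtain ⟨C, hC⟩ := hcrit
  set C' := max C 0 + 1 with hC'
  have hC'1 : 1 ≤ C' := by simp [hC']
  have hCC' : C < C' := by
    have := le_max_left C 0
    simp only [hC']; linarith
  -- the barrier function
  have key : ∀ ε ∈ Ioc (0:ℝ) 1, ∀ t ∈ Icc 0 t', ∀ x,
      u (t, x) - ε * b x - C' * ε * t ≤ K := by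
    intro ε hε
    set v : ℝ × E → ℝ := fun q => u q - ε * b q.2 - C' * ε * q.1 with hv
    have hbq : ContDiff ℝ 2 (fun q : ℝ × E => b q.2) := hb.comp contDiff_snd
    have hvU : ContDiffOn ℝ 2 v U := by
      apply (hu.sub (contDiff_const.mul hbq).contDiffOn).sub
      exact (contDiff_const.mul contDiff_fst).contDiffOn
    have hbfd : ∀ q : ℝ × E, ∀ w : ℝ × E, fderiv ℝ (fun q : ℝ × E => b q.2) q w
        = fderiv ℝ b q.2 w.2 := by
      intro q w
      have h1 : HasFDerivAt (fun q : ℝ × E => b q.2)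
          ((fderiv ℝ b q.2).comp (ContinuousLinearMap.snd ℝ ℝ E)) q :=
        ((hb.differentiable (by norm_num) q.2).hasFDerivAt).comp q hasFDerivAt_snd
      rw [h1.fderiv]; rfl
    have hvfd : ∀ q ∈ U, ∀ w : ℝ × E, fderiv ℝ v q w
        = fderiv ℝ u q w - ε * fderiv ℝ b q.2 w.2 - C' * ε * w.1 := by
      intro q hq w
      have h1 : HasFDerivAt u (fderiv ℝ u q) q :=
        ((hu.contDiffAt (hU.mem_nhds hq)).differentiableAt (by norm_num)).hasFDerivAt
      have h2 : HasFDerivAt (fun q : ℝ × E => b q.2) (fderiv ℝ (fun q : ℝ × E => b q.2) q) q :=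
        (hbq.differentiable (by norm_num) q).hasFDerivAt
      have h3 : HasFDerivAt (fun q : ℝ × E => q.1) (ContinuousLinearMap.fst ℝ ℝ E) q :=
        hasFDerivAt_fst
      have h4 := (h1.sub (h2.const_mul ε)).sub (h3.const_mul (C' * ε))
      have h5 : HasFDerivAt v
          (fderiv ℝ u q - ε • fderiv ℝ (fun q : ℝ × E => b q.2) q
            - (C' * ε) • ContinuousLinearMap.fst ℝ ℝ E) q := h4
      rw [h5.fderiv]
      simp [hbfd]
    have := max_principle_gen hU hsub hvU (K := K) ?_ ?_ ?_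
    · intro t ht x
      exact this t ht x
    · intro c hc
      -- superlevel sets are bounded
      have hev : ∀ᶠ x in cocompact E, (M - c + |C' * ε * t'|) / ε + 1 ≤ b x :=
        hbp.eventually_ge_atTop _
      obtain ⟨R, hR⟩ : ∃ R, ∀ x, R < ‖x‖ → (M - c + |C' * ε * t'|) / ε + 1 ≤ b x := by
        rw [← Metric.cobounded_eq_cocompact] at hev
        have := (Metric.hasBasis_cobounded_compl_closedBall (0 : E)).eventually_iff.mp hev
        obtain ⟨R, -, hR⟩ := this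
        exact ⟨R, fun x hx => hR (by simpa using hx)⟩
      refine ((Metric.isBounded_Icc (0:ℝ) t').prod (Metric.isBounded_closedBall
        (x := (0:E)) (r := R))).subset ?_
      rintro ⟨t, x⟩ ⟨⟨ht, -⟩, hp⟩
      refine ⟨ht, ?_⟩
      simp only [Metric.mem_closedBall, dist_zero_right]
      by_contra hx
      push Not at hx
      have h1 := hR x hx
      have h2 := hM t ht x
      have h3 : (M - c + |C' * ε * t'|) / ε * ε = M - c + |C' * ε * t'| :=
        div_mul_cancel₀ _ hε.1.ne'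
      have h4 : 0 ≤ C' * ε * t := by
        have := ht.1; have := hε.1; positivity
      have h5 : c ≤ u (t, x) - ε * b x - C' * ε * t := hp
      have h6 := mul_le_mul_of_nonneg_left h1 hε.1.le
      have h7 : 0 ≤ |C' * ε * t'| := abs_nonneg _
      nlinarith [hε.1]
    · intro x
      have := h0 x
      have h1 := hb0 x
      have h2 : 0 ≤ ε * b x := mul_nonneg hε.1.le h1
      simp only [hv, mul_zero, sub_zero]
      linarith
    · intro t ht x hc1 hc2 hc3
      have hpU : (t, x) ∈ U := hsub ⟨⟨ht.1.le, ht.2⟩, mem_univ _⟩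
      by_contra hK
      push Not at hK
      have hKu : K < u (t, x) := by
        have h1 : 0 ≤ ε * b x := mul_nonneg hε.1.le (hb0 x)
        have h2 : 0 ≤ C' * ε * t := by
          have := ht.1; have := hε.1; positivity
        simp only [hv] at hK
        linarith
      have g1 : ∀ w, fderiv ℝ u (t, x) (0, w) = ε * fderiv ℝ b x w := by
        intro w
        have := hc1 w
        rw [hvfd _ hpU] at this
        simp only [mul_zero, sub_zero] at this
        linarith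
      have g2 : ∀ w, fderiv ℝ (fun q => fderiv ℝ u q (0, w)) (t, x) (0, w) ≤
          ε * fderiv ℝ (fun y => fderiv ℝ b y w) x w := by
        intro w
        have h1 := hc2 w
        have hev : (fun q => fderiv ℝ v q (0, w)) =ᶠ[𝓝 (t, x)]
            fun q => fderiv ℝ u q (0, w) - ε * fderiv ℝ b q.2 w := by
          filter_upwards [hU.mem_nhds hpU] with q hq
          rw [hvfd q hq]; simp
        rw [hev.fderiv_eq] at h1
        have hcd : ContDiffAt ℝ 2 u (t, x) := hu.contDiffAt (hU.mem_nhds hpU)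
        have hd : DifferentiableAt ℝ (fun q => fderiv ℝ u q (0, w)) (t, x) := by
          have h2 : ContDiffAt ℝ 1 (fderiv ℝ u) (t, x) := hcd.fderiv_right (by norm_num)
          exact (h2.differentiableAt (by norm_num)).clm_apply (differentiableAt_const _)
        have hdb : DifferentiableAt ℝ (fun y => fderiv ℝ b y w) x := by
          have h2 : ContDiffAt ℝ 1 (fderiv ℝ b) x := hb.contDiffAt.fderiv_right (by norm_num)
          exact (h2.differentiableAt (by norm_num)).clm_apply (differentiableAt_const _)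
        have h3 : HasFDerivAt (fun q : ℝ × E => fderiv ℝ b q.2 w)
            ((fderiv ℝ (fun y => fderiv ℝ b y w) x).comp (ContinuousLinearMap.snd ℝ ℝ E))
            (t, x) :=
          HasFDerivAt.comp (t, x) (g := fun y => fderiv ℝ b y w) hdb.hasFDerivAt
            hasFDerivAt_snd
        have h4 := (hd.hasFDerivAt.sub (h3.const_mul ε)).fderiv
        rw [show (fun q : ℝ × E => fderiv ℝ u q (0, w) - ε * fderiv ℝ b q.2 w) =
          (fun q => fderiv ℝ u q (0, w)) - (fun q => ε * fderiv ℝ b q.2 w) from rfl, h4] at h1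
        simp at h1
        linarith
      have g3 := hC ε hε t ht x g1 g2 hKu
      have g4 := hc3
      rw [hvfd _ hpU] at g4
      simp only [map_zero, mul_zero, sub_zero, mul_one] at g4
      have := hε.1
      nlinarith
  intro t ht x
  -- let ε → 0
  have hlim : Tendsto (fun ε : ℝ => u (t, x) - ε * b x - C' * ε * t) (𝓝[>] 0)
      (𝓝 (u (t, x))) := by
    have : Tendsto (fun ε : ℝ => u (t, x) - ε * b x - C' * ε * t) (𝓝 0)
        (𝓝 (u (t, x) - 0 * b x - C' * 0 * t)) := by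
      apply Continuous.tendsto; fun_prop
    simp only [zero_mul, sub_zero, mul_zero] at this
    exact this.mono_left nhdsWithin_le_nhds
  refine le_of_tendsto hlim ?_
  have : Ioc (0:ℝ) 1 ∈ 𝓝[>] (0:ℝ) := Ioc_mem_nhdsGT one_pos
  filter_upwards [this] with ε hε
  exact key ε hε t ht x

theorem max_principle {n : ℕ} {t' : ℝ} (_ht' : 0 < t') {u : ℝ × (Fin n → ℝ) → ℝ}
    {U : Set (ℝ × (Fin n → ℝ))} (hU : IsOpen U) (hsub : Icc 0 t' ×ˢ univ ⊆ U)
    (hu : ContDiffOn ℝ ∞ u U)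
    (hproper : ∀ c : ℝ, ∃ R : ℝ, ∀ t ∈ Icc 0 t', ∀ x, c ≤ u (t, x) → ‖x‖ ≤ R)
    (K : ℝ) (h0 : ∀ x, u (0, x) ≤ K)
    (hint : ∀ t ∈ Ioc 0 t', ∀ x : Fin n → ℝ, (∀ w, D (0, w) u (t, x) = 0) →
      (∀ w, D (0, w) (D (0, w) u) (t, x) ≤ 0) → 0 ≤ D (1, 0) u (t, x) → u (t, x) ≤ K) :
    ∀ t ∈ Icc 0 t', ∀ x, u (t, x) ≤ K := by
  refine max_principle_gen hU hsub (hu.of_le (by norm_cast)) ?_ h0 ?_
  · intro c _
    obtain ⟨R, hR⟩ := hproper c
    refine ((Metric.isBounded_Icc (0:ℝ) t').prod (Metric.isBounded_closedBall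
        (x := (0 : Fin n → ℝ)) (r := R))).subset ?_
    rintro ⟨t, x⟩ ⟨⟨ht, -⟩, hp⟩
    exact ⟨ht, by simpa using hR t ht x hp⟩
  · intro t ht x h1 h2 h3
    exact hint t ht x h1 h2 h3

theorem max_principle_barrier {n : ℕ} {t' : ℝ} (_ht' : 0 < t') {u : ℝ × (Fin n → ℝ) → ℝ}
    {U : Set (ℝ × (Fin n → ℝ))} (hU : IsOpen U) (hsub : Icc 0 t' ×ˢ univ ⊆ U)
    (hu : ContDiffOn ℝ ∞ u U) (hbdd : ∃ C : ℝ, ∀ t ∈ Icc 0 t', ∀ x, u (t, x) ≤ C)
    {b : (Fin n → ℝ) → ℝ} (hb : ContDiff ℝ ∞ b) (hb0 : ∀ x, 0 ≤ b x)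
    (hbp : ∀ c : ℝ, ∃ R : ℝ, ∀ x, b x ≤ c → ‖x‖ ≤ R)
    (K : ℝ) (h0 : ∀ x, u (0, x) ≤ K)
    (hint : ∃ C : ℝ, ∀ ε ∈ Ioc (0 : ℝ) 1, ∀ t ∈ Ioc 0 t', ∀ x : Fin n → ℝ,
      (∀ w, D (0, w) u (t, x) = ε * D w b x) →
      (∀ w, D (0, w) (D (0, w) u) (t, x) ≤ ε * D w (D w b) x) → K < u (t, x) →
      D (1, 0) u (t, x) ≤ C * ε) :
    ∀ t ∈ Icc 0 t', ∀ x, u (t, x) ≤ K := by
  refine max_principle_barrier_gen hU hsub (hu.of_le (by norm_cast))
    (hb.of_le (by norm_cast)) hb0 ?_ hbdd h0 ?_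
  · rw [tendsto_atTop]
    intro c
    obtain ⟨R, hR⟩ := hbp c
    rw [← Metric.cobounded_eq_cocompact]
    refine (Metric.hasBasis_cobounded_compl_closedBall (0 : Fin n → ℝ)).eventually_iff.mpr
      ⟨R, trivial, fun x hx => ?_⟩
    by_contra h
    push Not at h
    have := hR x h.le
    simp at hx
    linarith
  · obtain ⟨C, hC⟩ := hint
    exact ⟨C, fun ε hε t ht x h1 h2 h3 => hC ε hε t ht x h1 h2 h3⟩

end Pool.Agent.ToricKRF

end

section

/-!
# The chain rule for the Levi form and the maximum principle on a compact manifold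
-/

open scoped ContDiff ENNReal ComplexOrder
open Set Filter Topology Pool.Agent.ToricKRF Pool.Agent.ToricKRF.G

namespace Pool.Agent.KRFS

section Second

variable {V V' : Type*} [NormedAddCommGroup V] [NormedSpace ℝ V] [NormedAddCommGroup V']
  [NormedSpace ℝ V']

theorem D_D_eq {f : V → ℝ} {p : V} (hf : ContDiffAt ℝ 2 f p) (a b : V) :
    D a (D b f) p = fderiv ℝ (fderiv ℝ f) p a b := by
  have h2 : DifferentiableAt ℝ (fderiv ℝ f) p :=
    (hf.fderiv_right (m := 1) (by norm_num)).differentiableAt (by norm_num)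
  change fderiv ℝ (fun y => (fderiv ℝ f y) b) p a = _
  rw [fderiv_clm_apply h2 (differentiableAt_const b)]
  simp

theorem D_D_comp {f : V → ℝ} {H : V' → V} {p : V'} (hf : ContDiffAt ℝ 2 f (H p))
    (hH : ContDiffAt ℝ 2 H p) (w : V') :
    D w (D w (fun q => f (H q))) p =
      fderiv ℝ (fderiv ℝ f) (H p) (fderiv ℝ H p w) (fderiv ℝ H p w) +
        fderiv ℝ f (H p) (fderiv ℝ (fun q => fderiv ℝ H q w) p w) := by
  have hev : D w (fun q => f (H q)) =ᶠ[𝓝 p] fun q => (fderiv ℝ f (H q)) (fderiv ℝ H q w) := by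
    have h1 : ∀ᶠ q in 𝓝 p, DifferentiableAt ℝ f (H q) :=
      hH.continuousAt.eventually ((hf.eventually (by simp)).mono fun y hy =>
        hy.differentiableAt (by norm_num))
    have h2 : ∀ᶠ q in 𝓝 p, DifferentiableAt ℝ H q :=
      (hH.eventually (by simp)).mono fun y hy => hy.differentiableAt (by norm_num)
    filter_upwards [h1, h2] with q h1 h2
    change fderiv ℝ (f ∘ H) q w = _
    rw [fderiv_comp q h1 h2]
    rfl
  have hf' : DifferentiableAt ℝ (fderiv ℝ f) (H p) :=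
    (hf.fderiv_right (m := 1) (by norm_num)).differentiableAt (by norm_num)
  have hH' : DifferentiableAt ℝ (fun q => fderiv ℝ H q w) p :=
    ((hH.fderiv_right (m := 1) (by norm_num)).differentiableAt (by norm_num)).clm_apply
      (differentiableAt_const w)
  have hHd : DifferentiableAt ℝ H p := hH.differentiableAt (by norm_num)
  have hc : DifferentiableAt ℝ (fun q => fderiv ℝ f (H q)) p := hf'.comp p hHd
  change fderiv ℝ (D w (fun q => f (H q))) p w = _
  rw [hev.fderiv_eq, fderiv_clm_apply hc hH']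
  have h3 : fderiv ℝ (fun q => fderiv ℝ f (H q)) p =
      (fderiv ℝ (fderiv ℝ f) (H p)).comp (fderiv ℝ H p) := fderiv_comp p hf' hHd
  rw [h3]
  simp [add_comm]

theorem D_slice' {E : Type*} [NormedAddCommGroup E] [NormedSpace ℝ E] {f : ℝ × E → ℝ} {t : ℝ}
    {x : E} (hf : DifferentiableAt ℝ f (t, x)) (w : E) :
    D (0, w) f (t, x) = D w (fun y => f (t, y)) x := by
  simp only [D]
  have h1 : HasFDerivAt (fun y : E => ((t, y) : ℝ × E)) (ContinuousLinearMap.inr ℝ ℝ E) x :=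
    (hasFDerivAt_const t x).prodMk (hasFDerivAt_id (𝕜 := ℝ) x)
  have h2 := (hf.hasFDerivAt.comp x h1).fderiv
  have h4 : (fun y => f (t, y)) = f ∘ fun y => (t, y) := rfl
  rw [h4, h2]
  simp

end Second

section Chain

variable {n m : ℕ}

theorem J_continuous : Continuous (J : Cn n → Cn n) := by
  unfold J
  fun_prop

/-- multiplication by `i` as a continuous linear map -/
def Jl (n : ℕ) : Cn n →L[ℝ] Cn n where
  toFun := J
  map_add' := J_add
  map_smul' := fun c u => J_smul c u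
  cont := J_continuous

theorem Jl_apply (u : Cn n) : Jl n u = J u := rfl

theorem two_le_infty : (2 : WithTop ℕ∞) ≤ ((⊤ : ℕ∞) : WithTop ℕ∞) := WithTop.coe_le_coe.2 le_top

/-- `H''(iu, iu) = - H''(u, u)` for holomorphic `H` -/
theorem HolOn.second {H : Cn n → Cn m} {S : Set (Cn n)} (hS : IsOpen S) (hH : HolOn H S)
    {z : Cn n} (hz : z ∈ S) (u : Cn n) :
    fderiv ℝ (fun q => fderiv ℝ H q (J u)) z (J u) = -fderiv ℝ (fun q => fderiv ℝ H q u) z u := by
  have hHz : ContDiffAt ℝ 2 H z := (hH.1.contDiffAt (hS.mem_nhds hz)).of_le two_le_infty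
  have hd : DifferentiableAt ℝ (fderiv ℝ H) z :=
    (hHz.fderiv_right (m := 1) (by norm_num)).differentiableAt (by norm_num)
  have key : ∀ a b : Cn n, fderiv ℝ (fun q => fderiv ℝ H q b) z a =
      fderiv ℝ (fderiv ℝ H) z a b := by
    intro a b
    rw [fderiv_clm_apply hd (differentiableAt_const b)]
    simp
  have hs : IsSymmSndFDerivAt ℝ H z := by
    apply hHz.isSymmSndFDerivAt
    rw [minSmoothness_of_isRCLikeNormedField]
  have hJ : ∀ a b : Cn n, fderiv ℝ (fun q => fderiv ℝ H q (J b)) z a =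
      J (fderiv ℝ (fun q => fderiv ℝ H q b) z a) := by
    intro a b
    have h1 : (fun q => fderiv ℝ H q (J b)) =ᶠ[𝓝 z] fun q => Jl m (fderiv ℝ H q b) := by
      filter_upwards [hS.mem_nhds hz] with q hq
      exact hH.2 q hq b
    have h2 : DifferentiableAt ℝ (fun q => fderiv ℝ H q b) z := hd.clm_apply (differentiableAt_const b)
    have h3 := ((Jl m).hasFDerivAt.comp z h2.hasFDerivAt).fderiv
    rw [h1.fderiv_eq]
    change fderiv ℝ ((Jl m) ∘ fun q => fderiv ℝ H q b) z a = _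
    rw [h3]
    rfl
  rw [hJ, key, hs, ← key, hJ, J_J]

theorem levz_comp {f : Cn m → ℝ} {S' : Set (Cn m)} (hS' : IsOpen S') (hf : ContDiffOn ℝ ∞ f S')
    {H : Cn n → Cn m} {S : Set (Cn n)} (hS : IsOpen S) (hH : HolOn H S) {z : Cn n} (hz : z ∈ S)
    (hp : H z ∈ S') (u : Cn n) :
    levz (fun x => f (H x)) u z = levz f (fderiv ℝ H z u) (H z) := by
  have hfz : ContDiffAt ℝ 2 f (H z) := (hf.contDiffAt (hS'.mem_nhds hp)).of_le two_le_infty
  have hHz : ContDiffAt ℝ 2 H z := (hH.1.contDiffAt (hS.mem_nhds hz)).of_le two_le_infty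
  have hJ := hH.2 z hz u
  unfold levz
  rw [D_D_comp hfz hHz, D_D_comp hfz hHz, hH.second hS hz u, hJ, D_D_eq hfz, D_D_eq hfz, map_neg]
  ring

theorem levz_slice {f : ℝ × Cn n → ℝ} {U : Set (ℝ × Cn n)} (hU : IsOpen U)
    (hf : ContDiffOn ℝ ∞ f U) {t : ℝ} {z : Cn n} (hp : (t, z) ∈ U) (u : Cn n) :
    levz (fun x => f (t, x)) u z = lev f u (t, z) := by
  have hev : ∀ᶠ x in 𝓝 z, (t, x) ∈ U :=
    (Continuous.prodMk_right t).continuousAt.eventually_mem (hU.mem_nhds hp)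
  have h1 : ∀ w, D w (fun x => f (t, x)) =ᶠ[𝓝 z] fun x => D (0, w) f (t, x) := by
    intro w
    filter_upwards [hev] with x hx
    exact (D_slice' (diffAt_of_contDiffOn hU hf hx) w).symm
  have h2 : ∀ w, D w (D w fun x => f (t, x)) z = D (0, w) (D (0, w) f) (t, z) := by
    intro w
    rw [LC.D_congr w (h1 w)]
    exact (D_slice' (diffAt_of_contDiffOn hU (contDiffOn_D hU hf _) hp) w).symm
  unfold levz lev
  rw [h2, h2]

theorem lev_snd {g : Cn n → ℝ} {S : Set (Cn n)} (hS : IsOpen S) (hg : ContDiffOn ℝ ∞ g S) {t : ℝ}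
    {z : Cn n} (hz : z ∈ S) (u : Cn n) : lev (fun q => g q.2) u (t, z) = levz g u z := by
  have hU : IsOpen ((univ : Set ℝ) ×ˢ S) := isOpen_univ.prod hS
  have hf : ContDiffOn ℝ ∞ (fun q : ℝ × Cn n => g q.2) (univ ×ˢ S) :=
    hg.comp contDiffOn_snd fun q hq => hq.2
  exact (levz_slice hU hf ⟨mem_univ _, hz⟩ u).symm

theorem lev_comp {f : ℝ × Cn m → ℝ} {U : Set (ℝ × Cn m)} (hU : IsOpen U)
    (hf : ContDiffOn ℝ ∞ f U) {H : Cn n → Cn m} {S : Set (Cn n)} (hS : IsOpen S) (hH : HolOn H S)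
    {t : ℝ} {z : Cn n} (hz : z ∈ S) (hp : (t, H z) ∈ U) (u : Cn n) :
    lev (fun q => f (q.1, H q.2)) u (t, z) = lev f (fderiv ℝ H z u) (t, H z) := by
  have hSo : IsOpen ((univ : Set ℝ) ×ˢ S) := isOpen_univ.prod hS
  have hHs : ContDiffOn ℝ ∞ (fun q : ℝ × Cn n => (q.1, H q.2)) (univ ×ˢ S) :=
    contDiffOn_fst.prodMk (hH.1.comp contDiffOn_snd fun q hq => hq.2)
  have hU' : IsOpen ((univ ×ˢ S) ∩ (fun q : ℝ × Cn n => (q.1, H q.2)) ⁻¹' U) :=
    hHs.continuousOn.isOpen_inter_preimage hSo hU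
  have hg : ContDiffOn ℝ ∞ (fun q : ℝ × Cn n => f (q.1, H q.2))
      ((univ ×ˢ S) ∩ (fun q : ℝ × Cn n => (q.1, H q.2)) ⁻¹' U) :=
    hf.comp (hHs.mono inter_subset_left) fun q hq => hq.2
  rw [← levz_slice hU' hg ⟨⟨mem_univ _, hz⟩, hp⟩, ← levz_slice hU hf hp]
  have hSl : IsOpen ((fun y : Cn m => (t, y)) ⁻¹' U) := hU.preimage (by fun_prop)
  have hfl : ContDiffOn ℝ ∞ (fun y : Cn m => f (t, y)) ((fun y : Cn m => (t, y)) ⁻¹' U) :=
    hf.comp (contDiffOn_const.prodMk contDiffOn_id) fun y hy => hy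
  exact levz_comp hSl hfl hS hH hz hp u

theorem lev_nonpos_of_max {g : ℝ × Cn n → ℝ} {t : ℝ} {z : Cn n} (hg : ContDiffAt ℝ ∞ g (t, z))
    (hmax : ∀ᶠ x in 𝓝 z, g (t, x) ≤ g (t, z)) (u : Cn n) : lev g u (t, z) ≤ 0 := by
  have hg2 : ContDiffAt ℝ 2 g (t, z) := hg.of_le two_le_infty
  have key : ∀ w : Cn n, D (0, w) (D (0, w) g) (t, z) ≤ 0 := by
    intro w
    obtain ⟨h1, -, h3⟩ := line_facts ((0 : ℝ), w) hg2
    change fderiv ℝ (fun q => fderiv ℝ g q (0, w)) (t, z) (0, w) ≤ 0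
    rw [← h3]
    apply deriv_deriv_nonpos_of_isLocalMax h1
    have hc : Tendsto (fun s : ℝ => z + s • w) (𝓝 0) (𝓝 z) := by
      have : Continuous fun s : ℝ => z + s • w := by fun_prop
      simpa using this.tendsto 0
    filter_upwards [hc.eventually hmax] with s hs
    simpa using hs
  unfold lev
  have h1 := key u
  have h2 := key (J u)
  linarith

theorem dt_nonneg_of_max {g : ℝ × Cn n → ℝ} {t : ℝ} {z : Cn n} (hg : ContDiffAt ℝ ∞ g (t, z))
    (hmax : ∀ᶠ r in 𝓝[<] t, g (r, z) ≤ g (t, z)) : 0 ≤ dt g (t, z) := by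
  have hg2 : ContDiffAt ℝ 2 g (t, z) := hg.of_le two_le_infty
  obtain ⟨g1, g2, -⟩ := line_facts ((1 : ℝ), (0 : Cn n)) hg2
  obtain ⟨c, hc, hcm⟩ := (mem_nhdsLT_iff_exists_Ioo_subset).1 hmax
  change 0 ≤ fderiv ℝ g (t, z) (1, 0)
  rw [← g2]
  have hct : c < t := hc
  apply deriv_nonneg_of_left_max (c := (c - t) / 2) (by linarith)
    (g1.differentiableAt (by norm_num))
  intro s hs
  rcases eq_or_lt_of_le hs.2 with h0 | h0
  · rw [h0]
  · have := hcm (show t + s ∈ Ioo c t from ⟨by linarith [hs.1], by linarith⟩)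
    simpa using this

theorem dt_sub_time {f : ℝ × Cn n → ℝ} {p : ℝ × Cn n} (hf : DifferentiableAt ℝ f p) (ε : ℝ) :
    dt (fun q => f q - ε * q.1) p = dt f p - ε := by
  unfold G.dt
  have h1 : DifferentiableAt ℝ (fun q : ℝ × Cn n => ε * q.1) p := by fun_prop
  rw [D_sub hf h1]
  congr 1
  have h2 : DifferentiableAt ℝ (fun q : ℝ × Cn n => q.1) p := by fun_prop
  rw [D_const_mul _ h2]
  have h3 : fderiv ℝ (fun q : ℝ × Cn n => q.1) p = ContinuousLinearMap.fst ℝ ℝ (Cn n) :=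
    hasFDerivAt_fst.fderiv
  simp [D, h3]

variable {M : Type} [TopologicalSpace M] {κ : Type} {e : κ → OpenPartialHomeomorph M (Cn n)}

theorem isOpen_dom (c c' : κ) : IsOpen (dom e c c') :=
  (e c).isOpen_inter_preimage_symm (e c').open_source

theorem mem_dom {c c' : κ} {p : M} (hp : p ∈ (e c).source) (hp' : p ∈ (e c').source) :
    e c p ∈ dom e c c' :=
  ⟨(e c).map_source hp, by rwa [(e c).left_inv hp]⟩

theorem tr_apply {c c' : κ} {p : M} (hp : p ∈ (e c).source) : tr e c c' (e c p) = e c' p := by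
  rw [tr, (e c).left_inv hp]

/-- a smooth function on `[0,T) × M`, in charts -/
structure IsFun (e : κ → OpenPartialHomeomorph M (Cn n)) (T : ℝ) (f : κ → ℝ × Cn n → ℝ) :
    Prop where
  smooth : ∀ c, ∃ U : Set (ℝ × Cn n), IsOpen U ∧ Ico 0 T ×ˢ (e c).target ⊆ U ∧
    ContDiffOn ℝ ∞ (f c) U
  compat : ∀ c c', ∀ t ∈ Ico 0 T, ∀ z ∈ dom e c c', f c (t, z) = f c' (t, tr e c c' z)

theorem IsFun.eq_of_mem {T : ℝ} {f : κ → ℝ × Cn n → ℝ} (hf : IsFun e T f) {c c' : κ} {t : ℝ}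
    (ht : t ∈ Ico 0 T) {p : M} (hp : p ∈ (e c).source) (hp' : p ∈ (e c').source) :
    f c (t, e c p) = f c' (t, e c' p) := by
  rw [hf.compat c c' t ht _ (mem_dom hp hp'), tr_apply hp]

theorem IsFun.contDiffAt {T : ℝ} {f : κ → ℝ × Cn n → ℝ} (hf : IsFun e T f) {c : κ} {t : ℝ}
    (ht : t ∈ Ico 0 T) {z : Cn n} (hz : z ∈ (e c).target) : ContDiffAt ℝ ∞ (f c) (t, z) := by
  obtain ⟨U, hU, hsub, hs⟩ := hf.smooth c
  exact hs.contDiffAt (hU.mem_nhds (hsub ⟨ht, hz⟩))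

/-- the function on `[0,T) × M` of `f` -/
noncomputable def glob (he : IsAtlas e) (f : κ → ℝ × Cn n → ℝ) : ℝ × M → ℝ := fun q =>
  f (he.cover q.2).choose (q.1, e (he.cover q.2).choose q.2)

theorem glob_eq (he : IsAtlas e) {T : ℝ} {f : κ → ℝ × Cn n → ℝ} (hf : IsFun e T f) {c : κ} {t : ℝ}
    (ht : t ∈ Ico 0 T) {p : M} (hp : p ∈ (e c).source) : glob he f (t, p) = f c (t, e c p) :=
  hf.eq_of_mem ht (he.cover p).choose_spec hp

theorem glob_continuousOn (he : IsAtlas e) {T : ℝ} {f : κ → ℝ × Cn n → ℝ} (hf : IsFun e T f) :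
    ContinuousOn (glob he f) (Ico 0 T ×ˢ univ) := by
  rintro ⟨t, p⟩ ⟨ht, -⟩
  obtain ⟨c, hc⟩ := he.cover p
  have h1 : ContinuousAt (fun q : ℝ × M => f c (q.1, e c q.2)) (t, p) := by
    have h2 : ContinuousAt (fun q : ℝ × M => (q.1, e c q.2)) (t, p) :=
      continuousAt_fst.prodMk (((e c).continuousAt hc).comp continuousAt_snd)
    exact ContinuousAt.comp (f := fun q : ℝ × M => (q.1, e c q.2)) (g := f c)
      (hf.contDiffAt ht ((e c).map_source hc)).continuousAt h2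
  refine h1.continuousWithinAt.congr_of_eventuallyEq ?_ (glob_eq he hf ht hc)
  have hev : ∀ᶠ q : ℝ × M in 𝓝[Ico 0 T ×ˢ univ] (t, p), q.2 ∈ (e c).source :=
    (continuousAt_snd.eventually_mem ((e c).open_source.mem_nhds hc)).filter_mono nhdsWithin_le_nhds
  filter_upwards [hev, self_mem_nhdsWithin] with q hq hq'
  exact glob_eq he hf hq'.1 hq

/-- **The maximum principle on a compact manifold.** -/
theorem max_principle [CompactSpace M] (he : IsAtlas e) {T : ℝ} {f : κ → ℝ × Cn n → ℝ}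
    (hf : IsFun e T f) {t' : ℝ} (ht' : t' ∈ Ico 0 T) {K : ℝ}
    (h0 : ∀ c, ∀ z ∈ (e c).target, f c (0, z) ≤ K)
    (hint : ∀ c, ∀ t ∈ Ioc 0 t', ∀ z ∈ (e c).target, (∀ u, lev (f c) u (t, z) ≤ 0) →
      G.dt (f c) (t, z) ≤ 0) :
    ∀ c, ∀ t ∈ Icc 0 t', ∀ z ∈ (e c).target, f c (t, z) ≤ K := by
  intro c₁ t₁ ht₁ z₁ hz₁
  by_contra hcon
  push Not at hcon
  set p₁ : M := (e c₁).symm z₁ with hp₁
  have hp₁s : p₁ ∈ (e c₁).source := (e c₁).map_target hz₁
  have hz₁' : e c₁ p₁ = z₁ := (e c₁).right_inv hz₁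
  have hsub : Icc 0 t' ×ˢ (univ : Set M) ⊆ Ico 0 T ×ˢ univ := fun q hq =>
    ⟨⟨hq.1.1, lt_of_le_of_lt hq.1.2 ht'.2⟩, hq.2⟩
  have hIco : ∀ t ∈ Icc 0 t', t ∈ Ico 0 T := fun t ht => ⟨ht.1, lt_of_le_of_lt ht.2 ht'.2⟩
  -- the perturbation
  obtain ⟨ε, hε, hεK⟩ : ∃ ε > 0, K < f c₁ (t₁, z₁) - ε * t₁ := by
    refine ⟨(f c₁ (t₁, z₁) - K) / (2 * (t₁ + 1)), ?_, ?_⟩
    · have := ht₁.1
      apply div_pos <;> linarith
    · have h1 := ht₁.1
      have h2 : (f c₁ (t₁, z₁) - K) / (2 * (t₁ + 1)) * t₁ ≤ (f c₁ (t₁, z₁) - K) / 2 := by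
        rw [div_mul_eq_mul_div, div_le_div_iff₀ (by positivity) (by norm_num)]
        nlinarith
      linarith
  set v : ℝ × M → ℝ := fun q => glob he f q - ε * q.1 with hv
  have hvc : ContinuousOn v (Icc 0 t' ×ˢ (univ : Set M)) :=
    ((glob_continuousOn he hf).mono hsub).sub (by fun_prop)
  have hcomp : IsCompact (Icc 0 t' ×ˢ (univ : Set M)) := isCompact_Icc.prod isCompact_univ
  obtain ⟨⟨t, p⟩, hpQ, hpmax⟩ := hcomp.exists_isMaxOn ⟨(t₁, p₁), ht₁, mem_univ _⟩ hvc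
  have htI : t ∈ Icc 0 t' := hpQ.1
  have hmax : ∀ r ∈ Icc 0 t', ∀ q, v (r, q) ≤ v (t, p) := fun r hr q => hpmax ⟨hr, mem_univ _⟩
  have hbig : K < v (t, p) := by
    refine lt_of_lt_of_le ?_ (hmax t₁ ht₁ p₁)
    simp only [hv, glob_eq he hf (hIco t₁ ht₁) hp₁s, hz₁']
    exact hεK
  obtain ⟨c, hc⟩ := he.cover p
  set z : Cn n := e c p with hz
  have hzt : z ∈ (e c).target := (e c).map_source hc
  have hvz : ∀ r ∈ Icc 0 t', ∀ x ∈ (e c).target, f c (r, x) - ε * r ≤ f c (t, z) - ε * t := by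
    intro r hr x hx
    have h1 := hmax r hr ((e c).symm x)
    simp only [hv, glob_eq he hf (hIco r hr) ((e c).map_target hx),
      glob_eq he hf (hIco t htI) hc, (e c).right_inv hx] at h1
    exact h1
  have htpos : 0 < t := by
    rcases htI.1.eq_or_lt with h | h
    · exfalso
      have h1 : v (t, p) = f c (0, z) := by
        simp only [hv, ← h]
        rw [glob_eq he hf (hIco 0 ⟨le_rfl, ht'.1⟩) hc]
        ring
      rw [h1] at hbig
      exact absurd (h0 c z hzt) (not_le.2 hbig)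
    · exact h
  have hcd := hf.contDiffAt (hIco t htI) hzt
  have hlev : ∀ u, lev (f c) u (t, z) ≤ 0 := by
    intro u
    refine lev_nonpos_of_max hcd ?_ u
    filter_upwards [(e c).open_target.mem_nhds hzt] with x hx
    have := hvz t htI x hx
    linarith
  have h1 := hint c t ⟨htpos, htI.2⟩ z hzt hlev
  have hcd' : ContDiffAt ℝ ∞ (fun q : ℝ × Cn n => f c q - ε * q.1) (t, z) :=
    hcd.sub (contDiffAt_const.mul contDiffAt_fst)
  have h2 := dt_nonneg_of_max hcd' (by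
    have hev : Ioo 0 t ∈ 𝓝[<] t := Ioo_mem_nhdsLT htpos
    filter_upwards [hev] with r hr
    exact hvz r ⟨hr.1.le, hr.2.le.trans htI.2⟩ z hzt)
  rw [dt_sub_time ((hcd.of_le two_le_infty).differentiableAt (by norm_num))] at h2
  linarith

end Chain

end Pool.Agent.KRFS

end
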