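import Pool.Agent.Work.MP_a2bf38_gt.Defs
import Pool.Agent.Work.MP_a2bf38_gt.G.Lev

section

/-!
# The analytic interface of a toric flow

`TFlow` collects what the chart part (Chart, LogDet) proves about a toric flow and what the PDE
part (MaxP, Estim) uses.
-/

open scoped ContDiff ENNReal
open Set

namespace Pool.Agent.ToricKRF

/-- `W_1, …, W_n` is an orthonormal frame for the Hessian of `φ` at `p`. -/
def IsFrame {n : ℕ} (φ : ℝ × (Fin n → ℝ) → ℝ) (p : ℝ × (Fin n → ℝ)) (W : Fin n → Fin n → ℝ) :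
    Prop :=
  ∀ c d, D (0, W c) (D (0, W d) φ) p = if c = d then 1 else 0

/-- The analytic data of a toric flow. -/
structure TFlow (n : ℕ) (ι : Type) [Fintype ι] (T : ℝ) where
  ν : ι → Fin n → ℝ
  φ : ℝ × (Fin n → ℝ) → ℝ
  lam : ι → ℝ → ℝ
  U : Set (ℝ × (Fin n → ℝ))
  isOpen_U : IsOpen U
  sub_U : Ico 0 T ×ˢ univ ⊆ U
  smooth_φ : ContDiffOn ℝ ∞ φ U
  smooth_lam : ∀ i, ContDiffOn ℝ ∞ (fun p : ℝ × (Fin n → ℝ) => lam i p.1) U
  span_ν : Submodule.span ℝ (range ν) = ⊤
  hess_pos : ∀ t ∈ Ico 0 T, ∀ x : Fin n → ℝ, ∀ w : Fin n → ℝ, w ≠ 0 →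
    0 < D (0, w) (D (0, w) φ) (t, x)
  l_pos : ∀ i, ∀ t ∈ Ico 0 T, ∀ x : Fin n → ℝ, 0 < D (0, ν i) φ (t, x) + lam i t
  flow_l : ∀ i, ∀ t ∈ Ioo 0 T, ∀ x : Fin n → ℝ, ∀ W, IsFrame φ (t, x) W →
    D (1, 0) (fun p => D (0, ν i) φ p + lam i p.1) (t, x) =
      ∑ c, D (0, W c) (D (0, W c) (fun p => D (0, ν i) φ p + lam i p.1)) (t, x) - 1
  flow_F : ∀ i, ∀ t ∈ Ioo 0 T, ∀ x : Fin n → ℝ, ∀ W, IsFrame φ (t, x) W →
    D (1, 0) (D (0, ν i) (D (0, ν i) φ)) (t, x) =
      ∑ c, D (0, W c) (D (0, W c) (D (0, ν i) (D (0, ν i) φ))) (t, x)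
        - ∑ c, ∑ d, (D (0, W c) (D (0, W d) (D (0, ν i) φ)) (t, x)) ^ 2
  bounds : ∀ t' ∈ Ico 0 T, ∃ C : ℝ, 0 < C ∧
    (∀ t ∈ Icc 0 t', ∀ x : Fin n → ℝ, ∀ i,
      D (0, ν i) φ (t, x) + lam i t ≤ C ∧
      D (0, ν i) φ (0, x) + lam i 0 ≤ C * (D (0, ν i) φ (t, x) + lam i t) ∧
      D (0, ν i) (D (0, ν i) φ) (t, x) - (D (0, ν i) φ (t, x) + lam i t) ≤
        C * (D (0, ν i) φ (t, x) + lam i t) ^ 2) ∧
    (∀ t ∈ Icc 0 t', ∀ x w : Fin n → ℝ,
      D (0, w) (D (0, w) φ) (0, x) ≤ C * D (0, w) (D (0, w) φ) (t, x)) ∧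
    (∀ t ∈ Icc 0 t', ∀ x : Fin n → ℝ, ∀ e : (Fin n → ℝ) →L[ℝ] ℝ,
      e x + ∑ i, max (-e (ν i)) 0 * Real.log (D (0, ν i) φ (t, x) + lam i t) ≤
        C * ∑ i, |e (ν i)|)

namespace TFlow

variable {n : ℕ} {ι : Type} [Fintype ι] {T : ℝ} (d : TFlow n ι T)

/-- The affine function `l_i = ⟨ν_i, ∇φ⟩ + λ_i`. -/
noncomputable def l (i : ι) : ℝ × (Fin n → ℝ) → ℝ := fun p => D (0, d.ν i) d.φ p + d.lam i p.1

/-- The squared norm `F_i = φ_{ν_i ν_i}` of the `i`-th rotation field. -/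
noncomputable def F (i : ι) : ℝ × (Fin n → ℝ) → ℝ := D (0, d.ν i) (D (0, d.ν i) d.φ)

end TFlow

/-- The estimates at a time `t` that imply the diameter bound. -/
structure GoodAt {n : ℕ} {ι : Type} [Fintype ι] (ν : ι → Fin n → ℝ) (C : ℝ)
    (φ : ℝ × (Fin n → ℝ) → ℝ) (lam : ι → ℝ) (t : ℝ) : Prop where
  l_pos : ∀ i, ∀ x : Fin n → ℝ, 0 < D (0, ν i) φ (t, x) + lam i
  l_le : ∀ i, ∀ x : Fin n → ℝ, D (0, ν i) φ (t, x) + lam i ≤ C
  F_le : ∀ i, ∀ x : Fin n → ℝ, D (0, ν i) (D (0, ν i) φ) (t, x) ≤ C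
  B_le : ∀ x : Fin n → ℝ, ∀ e : (Fin n → ℝ) →L[ℝ] ℝ,
      e x + ∑ i, max (-e (ν i)) 0 * Real.log (D (0, ν i) φ (t, x) + lam i) ≤ C * ∑ i, |e (ν i)|

end Pool.Agent.ToricKRF

end

section

/-!
# Calculus of directional derivatives of smooth functions on open sets
-/

open scoped ContDiff
open Set

namespace Pool.Agent.ToricKRF

variable {V : Type*} [NormedAddCommGroup V] [NormedSpace ℝ V]

theorem diffAt_of_contDiffOn {f : V → ℝ} {U : Set V} (hU : IsOpen U) (hf : ContDiffOn ℝ ∞ f U)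
    {p : V} (hp : p ∈ U) : DifferentiableAt ℝ f p :=
  (hf.differentiableOn (by simp)).differentiableAt (hU.mem_nhds hp)

theorem contDiffOn_D {f : V → ℝ} {U : Set V} (hU : IsOpen U) (hf : ContDiffOn ℝ ∞ f U) (w : V) :
    ContDiffOn ℝ ∞ (D w f) U := by
  have h1 : ContDiffOn ℝ ∞ (fderiv ℝ f) U :=
    ((contDiffOn_infty_iff_fderiv_of_isOpen hU).1 hf).2
  exact h1.clm_apply contDiffOn_const

theorem D_congr {f g : V → ℝ} {U : Set V} (hU : IsOpen U) (h : EqOn f g U) (w : V) :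
    EqOn (D w f) (D w g) U := by
  intro p hp
  have : f =ᶠ[nhds p] g := Filter.eventuallyEq_of_mem (hU.mem_nhds hp) h
  simp only [D]
  rw [this.fderiv_eq]

theorem D_comm {f : V → ℝ} {U : Set V} (hU : IsOpen U) (hf : ContDiffOn ℝ ∞ f U) {p : V}
    (hp : p ∈ U) (w w' : V) : D w (D w' f) p = D w' (D w f) p := by
  have hfa : ContDiffAt ℝ ∞ f p := hf.contDiffAt (hU.mem_nhds hp)
  have hs : IsSymmSndFDerivAt ℝ f p := by
    apply hfa.isSymmSndFDerivAt
    rw [minSmoothness_of_isRCLikeNormedField]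
    exact WithTop.coe_le_coe.2 le_top
  have h1 : ContDiffOn ℝ ∞ (fderiv ℝ f) U :=
    ((contDiffOn_infty_iff_fderiv_of_isOpen hU).1 hf).2
  have h2 : DifferentiableAt ℝ (fderiv ℝ f) p :=
    (h1.differentiableOn (by simp)).differentiableAt (hU.mem_nhds hp)
  have key : ∀ a b : V, D a (D b f) p = fderiv ℝ (fderiv ℝ f) p a b := by
    intro a b
    change fderiv ℝ (fun y => (fderiv ℝ f y) b) p a = _
    rw [fderiv_clm_apply h2 (differentiableAt_const b)]
    simp
  rw [key, key]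
  exact hs w w'

theorem D_add {f g : V → ℝ} {p : V} (hf : DifferentiableAt ℝ f p) (hg : DifferentiableAt ℝ g p)
    (w : V) : D w (fun q => f q + g q) p = D w f p + D w g p := by
  simp only [D]
  rw [fderiv_fun_add hf hg]
  simp

theorem D_sub {f g : V → ℝ} {p : V} (hf : DifferentiableAt ℝ f p) (hg : DifferentiableAt ℝ g p)
    (w : V) : D w (fun q => f q - g q) p = D w f p - D w g p := by
  simp only [D]
  rw [fderiv_fun_sub hf hg]
  simp

theorem D_mul {f g : V → ℝ} {p : V} (hf : DifferentiableAt ℝ f p) (hg : DifferentiableAt ℝ g p)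
    (w : V) : D w (fun q => f q * g q) p = f p * D w g p + g p * D w f p := by
  simp only [D]
  rw [fderiv_fun_mul hf hg]
  simp

theorem D_const_mul {f : V → ℝ} {p : V} (c : ℝ) (hf : DifferentiableAt ℝ f p) (w : V) :
    D w (fun q => c * f q) p = c * D w f p := by
  simp only [D]
  rw [fderiv_const_mul hf c]
  simp

theorem D_const (c : ℝ) (w : V) (p : V) : D w (fun _ : V => c) p = 0 := by
  simp [D]

theorem D_sum {κ : Type*} (s : Finset κ) {f : κ → V → ℝ} {p : V}
    (hf : ∀ k ∈ s, DifferentiableAt ℝ (f k) p) (w : V) :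
    D w (fun q => ∑ k ∈ s, f k q) p = ∑ k ∈ s, D w (f k) p := by
  simp only [D]
  rw [fderiv_fun_sum hf]
  simp

/-- Chain rule for a real function of `f`. -/
theorem D_comp {f : V → ℝ} {h : ℝ → ℝ} {h' : ℝ} {p : V} (hf : DifferentiableAt ℝ f p)
    (hh : HasDerivAt h h' (f p)) (w : V) : D w (fun q => h (f q)) p = h' * D w f p := by
  simp only [D]
  have := (hh.hasFDerivAt.comp p hf.hasFDerivAt).fderiv
  have h2 : (fun q => h (f q)) = h ∘ f := rfl
  rw [h2, this]
  simp [mul_comm]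

theorem D_dir_add (f : V → ℝ) (p v w : V) : D (v + w) f p = D v f p + D w f p := by
  simp [D]

theorem D_dir_smul (f : V → ℝ) (p : V) (c : ℝ) (w : V) : D (c • w) f p = c * D w f p := by
  simp [D]

theorem D_dir_neg (f : V → ℝ) (p w : V) : D (-w) f p = -D w f p := by
  simp [D]

theorem D_dir_zero (f : V → ℝ) (p : V) : D 0 f p = 0 := by
  simp [D]

theorem D_dir_sum {κ : Type*} (s : Finset κ) (f : V → ℝ) (p : V) (c : κ → ℝ) (w : κ → V) :
    D (∑ k ∈ s, c k • w k) f p = ∑ k ∈ s, c k * D (w k) f p := by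
  simp [D]

/-- A space direction as a combination. -/
theorem D_dir_sum_snd {n : ℕ} {κ : Type*} (s : Finset κ) (f : ℝ × (Fin n → ℝ) → ℝ)
    (p : ℝ × (Fin n → ℝ)) (c : κ → ℝ) (w : κ → Fin n → ℝ) :
    D (0, ∑ k ∈ s, c k • w k) f p = ∑ k ∈ s, c k * D (0, w k) f p := by
  have : ((0 : ℝ), ∑ k ∈ s, c k • w k) = ∑ k ∈ s, c k • ((0 : ℝ), w k) := by
    ext1
    · simp [Prod.fst_sum]
    · simp [Prod.snd_sum]
  rw [this, D_dir_sum]

/-- Derivative along a line. -/
theorem hasDerivAt_line {f : V → ℝ} {p w : V} {s : ℝ} (hf : DifferentiableAt ℝ f (p + s • w)) :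
    HasDerivAt (fun r : ℝ => f (p + r • w)) (D w f (p + s • w)) s := by
  have h1 : HasDerivAt (fun r : ℝ => p + r • w) w s := by
    simpa using ((hasDerivAt_id s).smul_const w).const_add p
  exact hf.hasFDerivAt.comp_hasDerivAt s h1

/-- Chain rule with a linear map and a translation. -/
theorem D_comp_linear {V' : Type*} [NormedAddCommGroup V'] [NormedSpace ℝ V'] (A : V' →L[ℝ] V)
    {f : V → ℝ} {p : V'} (hf : DifferentiableAt ℝ f (A p)) (w : V') :
    D w (fun q => f (A q)) p = D (A w) f (A p) := by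
  simp only [D]
  have h2 : (fun q => f (A q)) = f ∘ A := rfl
  rw [h2, fderiv_comp p hf A.differentiableAt]
  simp

/-- Space derivatives at a fixed time are derivatives of the time slice. -/
theorem D_slice {n : ℕ} {f : ℝ × (Fin n → ℝ) → ℝ} {t : ℝ} {x : Fin n → ℝ}
    (hf : DifferentiableAt ℝ f (t, x)) (w : Fin n → ℝ) :
    D (0, w) f (t, x) = D w (fun y => f (t, y)) x := by
  simp only [D]
  have h1 : HasFDerivAt (fun y : Fin n → ℝ => ((t, y) : ℝ × (Fin n → ℝ)))
      (ContinuousLinearMap.inr ℝ ℝ (Fin n → ℝ)) x := by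
    exact (hasFDerivAt_const t x).prodMk (hasFDerivAt_id (𝕜 := ℝ) x)
  have h2 := (hf.hasFDerivAt.comp x h1).fderiv
  have h4 : (fun y => f (t, y)) = f ∘ fun y => (t, y) := rfl
  rw [h4, h2]
  simp

end Pool.Agent.ToricKRF

end

section

/-!
# Linear algebra of the complex Hessian
-/

open scoped ContDiff ENNReal ComplexOrder
open Set

namespace Pool.Agent.ToricKRF.G

section J

variable {n : ℕ}

theorem J_J (u : Cn n) : J (J u) = -u := by
  simp [J, Prod.ext_iff]

theorem J_add (u w : Cn n) : J (u + w) = J u + J w := by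
  ext j <;> simp [J]
  ring

theorem J_smul (c : ℝ) (u : Cn n) : J (c • u) = c • J u := by
  ext j <;> simp [J]

theorem J_sum {κ : Type*} (s : Finset κ) (u : κ → Cn n) : J (∑ c ∈ s, u c) = ∑ c ∈ s, J (u c) := by
  classical
  induction s using Finset.induction_on with
  | empty => simp [J]
  | insert a s ha ih => rw [Finset.sum_insert ha, Finset.sum_insert ha, J_add, ih]

end J

/-- the complex coordinate `u_k` -/
noncomputable def cc {n : ℕ} (u : Cn n) (k : Fin n) : ℂ := ⟨u.1 k, u.2 k⟩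

theorem cc_J {n : ℕ} (u : Cn n) (k : Fin n) : cc (J u) k = Complex.I * cc u k := by
  apply Complex.ext <;> simp [cc, J]

/-- The real part of the polarised Levi form. -/
noncomputable def sf {n : ℕ} (f : ℝ × Cn n → ℝ) (u w : Cn n) : ℝ × Cn n → ℝ :=
  fun p => (D (0, u) (D (0, w) f) p + D (0, J u) (D (0, J w) f) p) / 4

theorem lev_eq_sf {n : ℕ} (f : ℝ × Cn n → ℝ) (u : Cn n) : lev f u = sf f u u := rfl

theorem cn_eq_sum {n : ℕ} (u : Cn n) :
    u = (∑ k, u.1 k • ((Pi.single k (1:ℝ) : Fin n → ℝ), (0 : Fin n → ℝ))) +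
      ∑ k, u.2 k • ((0 : Fin n → ℝ), (Pi.single k (1:ℝ) : Fin n → ℝ)) := by
  ext j <;> simp [Prod.fst_sum, Prod.snd_sum, Finset.sum_apply, Pi.single_apply]

theorem D_dir_cn {n : ℕ} (f : ℝ × Cn n → ℝ) (p : ℝ × Cn n) (u : Cn n) :
    D (0, u) f p = (∑ k, u.1 k * da k f p) + ∑ k, u.2 k * db k f p := by
  have h : ((0:ℝ), u) =
      (∑ k, u.1 k • ((0:ℝ), ((Pi.single k (1:ℝ) : Fin n → ℝ), (0 : Fin n → ℝ)))) +
      ∑ k, u.2 k • ((0:ℝ), ((0 : Fin n → ℝ), (Pi.single k (1:ℝ) : Fin n → ℝ))) := by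
    refine Prod.ext ?_ ?_
    · simp [Prod.fst_sum]
    · conv_lhs => rw [show ((0:ℝ), u).2 = u from rfl, cn_eq_sum u]
      simp [Prod.snd_sum]
  rw [h, D_dir_add, D_dir_sum, D_dir_sum]
  rfl

section

variable {n : ℕ} {f : ℝ × Cn n → ℝ} {U : Set (ℝ × Cn n)}

/-- second directional derivatives in coordinates -/
theorem D_D_cn (hU : IsOpen U) (hf : ContDiffOn ℝ ∞ f U) {p : ℝ × Cn n} (hp : p ∈ U)
    (u w : Cn n) :
    D (0, u) (D (0, w) f) p = ∑ k, ∑ l, (u.1 k * w.1 l * da k (da l f) p +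
      u.1 k * w.2 l * da k (db l f) p + u.2 k * w.1 l * db k (da l f) p +
      u.2 k * w.2 l * db k (db l f) p) := by
  have h1 : D ((0:ℝ), w) f = fun q => (∑ k, w.1 k * da k f q) + ∑ k, w.2 k * db k f q := by
    funext q
    exact D_dir_cn f q w
  have e1 : ∀ l, DifferentiableAt ℝ (da l f) p := fun l =>
    diffAt_of_contDiffOn hU (contDiffOn_D hU hf _) hp
  have e2 : ∀ l, DifferentiableAt ℝ (db l f) p := fun l =>
    diffAt_of_contDiffOn hU (contDiffOn_D hU hf _) hp
  have h2 : ∀ v : ℝ × Cn n, D v (D ((0:ℝ), w) f) p =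
      (∑ l, w.1 l * D v (da l f) p) + ∑ l, w.2 l * D v (db l f) p := by
    intro v
    rw [h1, D_add, D_sum, D_sum]
    · congr 1
      · exact Finset.sum_congr rfl fun l _ => D_const_mul _ (e1 l) _
      · exact Finset.sum_congr rfl fun l _ => D_const_mul _ (e2 l) _
    · exact fun l _ => (e2 l).const_mul _
    · exact fun l _ => (e1 l).const_mul _
    · exact DifferentiableAt.fun_sum fun l _ => (e1 l).const_mul _
    · exact DifferentiableAt.fun_sum fun l _ => (e2 l).const_mul _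
  rw [D_dir_cn]
  have h3 : ∀ k, da k (D ((0:ℝ), w) f) p =
      (∑ l, w.1 l * da k (da l f) p) + ∑ l, w.2 l * da k (db l f) p := fun k => h2 _
  have h4 : ∀ k, db k (D ((0:ℝ), w) f) p =
      (∑ l, w.1 l * db k (da l f) p) + ∑ l, w.2 l * db k (db l f) p := fun k => h2 _
  simp_rw [h3, h4]
  rw [← Finset.sum_add_distrib]
  refine Finset.sum_congr rfl fun k _ => ?_
  simp only [mul_add, Finset.mul_sum]
  rw [← Finset.sum_add_distrib, ← Finset.sum_add_distrib, ← Finset.sum_add_distrib]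
  exact Finset.sum_congr rfl fun l _ => by ring

/-- The real part of the polarised Levi form in terms of the complex Hessian. -/
theorem sf_eq_re (hU : IsOpen U) (hf : ContDiffOn ℝ ∞ f U) {p : ℝ × Cn n} (hp : p ∈ U)
    (u w : Cn n) :
    sf f u w p = (∑ k, ∑ l, cHess f p k l * cc u k * (starRingEnd ℂ) (cc w l)).re := by
  unfold sf
  rw [D_D_cn hU hf hp, D_D_cn hU hf hp, ← Finset.sum_add_distrib, Finset.sum_div, Complex.re_sum]
  refine Finset.sum_congr rfl fun k _ => ?_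
  rw [← Finset.sum_add_distrib, Finset.sum_div, Complex.re_sum]
  refine Finset.sum_congr rfl fun l _ => ?_
  simp [cHess, cc, J]
  ring

/-- The polarised Levi form `f_{k lbar} u_k wbar_l`. -/
theorem sf_eq (hU : IsOpen U) (hf : ContDiffOn ℝ ∞ f U) {p : ℝ × Cn n} (hp : p ∈ U)
    (u w : Cn n) :
    (⟨sf f u w p, sf f u (J w) p⟩ : ℂ) =
      ∑ k, ∑ l, cHess f p k l * cc u k * (starRingEnd ℂ) (cc w l) := by
  apply Complex.ext
  · exact sf_eq_re hU hf hp u w
  · change sf f u (J w) p = _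
    rw [sf_eq_re hU hf hp, Complex.re_sum, Complex.im_sum]
    refine Finset.sum_congr rfl fun k _ => ?_
    rw [Complex.re_sum, Complex.im_sum]
    refine Finset.sum_congr rfl fun l _ => ?_
    rw [cc_J]
    simp
    ring

theorem lev_eq_cHess (hU : IsOpen U) (hf : ContDiffOn ℝ ∞ f U) {p : ℝ × Cn n} (hp : p ∈ U)
    (u : Cn n) :
    lev f u p = (∑ k, ∑ l, cHess f p k l * (⟨u.1 k, u.2 k⟩ : ℂ) *
      (starRingEnd ℂ) ⟨u.1 l, u.2 l⟩).re :=
  sf_eq_re hU hf hp u u

theorem cc_ne_zero {u : Cn n} (hu : u ≠ 0) : cc u ≠ 0 := by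
  intro h
  apply hu
  have h1 : ∀ k, cc u k = 0 := fun k => congrFun h k
  refine Prod.ext ?_ ?_ <;> funext k
  · have := congrArg Complex.re (h1 k)
    simpa [cc] using this
  · have := congrArg Complex.im (h1 k)
    simpa [cc] using this

theorem lev_pos (hU : IsOpen U) (hf : ContDiffOn ℝ ∞ f U) {p : ℝ × Cn n} (hp : p ∈ U)
    (hpos : (cHess f p).PosDef) {u : Cn n} (hu : u ≠ 0) : 0 < lev f u p := by
  have h1 : star (cc u) ≠ 0 := by
    rw [star_ne_zero]
    exact cc_ne_zero hu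
  have h2 := hpos.dotProduct_mulVec_pos h1
  have h3 := (Complex.pos_iff.1 h2).1
  rw [lev_eq_sf, sf_eq_re hU hf hp]
  refine lt_of_lt_of_eq h3 ?_
  congr 1
  simp only [dotProduct, Matrix.mulVec, star_star, Pi.star_apply]
  refine Finset.sum_congr rfl fun k _ => ?_
  rw [Finset.mul_sum]
  exact Finset.sum_congr rfl fun l _ => by
    rw [RCLike.star_def]
    ring

end

end Pool.Agent.ToricKRF.G

end

section

/-!
# Calculus of the heat operator `L = D_{(1,0)} - ∑ c, D_{(0,W c)} D_{(0,W c)}` at a point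
-/

namespace Pool.Agent.ToricKRF.LC

open Set Filter Topology

variable {F : Type*} [NormedAddCommGroup F] [NormedSpace ℝ F]

theorem D_def (w : F) (f : F → ℝ) (p : F) : D w f p = fderiv ℝ f p w := rfl

variable {f g : F → ℝ} {p : F}

theorem D_congr (v : F) (h : f =ᶠ[𝓝 p] g) : D v f p = D v g p := by
  simp only [D, h.fderiv_eq]

theorem D_congr_ev (v : F) (h : f =ᶠ[𝓝 p] g) : D v f =ᶠ[𝓝 p] D v g := by
  filter_upwards [h.eventuallyEq_nhds] with q hq
  exact D_congr v hq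

theorem D_D_congr (v w : F) (h : f =ᶠ[𝓝 p] g) : D v (D w f) p = D v (D w g) p :=
  D_congr v (D_congr_ev w h)

theorem contDiffAt_D {n m : WithTop ℕ∞} (w : F) (hf : ContDiffAt ℝ n f p) (hmn : m + 1 ≤ n) :
    ContDiffAt ℝ m (D w f) p :=
  (hf.fderiv_right hmn).clm_apply contDiffAt_const

theorem D_add (v : F) (hf : DifferentiableAt ℝ f p) (hg : DifferentiableAt ℝ g p) :
    D v (fun q => f q + g q) p = D v f p + D v g p := by
  simp only [D]
  rw [(hf.hasFDerivAt.fun_add hg.hasFDerivAt).fderiv]; simp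

theorem D_sub (v : F) (hf : DifferentiableAt ℝ f p) (hg : DifferentiableAt ℝ g p) :
    D v (fun q => f q - g q) p = D v f p - D v g p := by
  simp only [D]
  rw [(hf.hasFDerivAt.fun_sub hg.hasFDerivAt).fderiv]; simp

theorem D_const_mul (v : F) (c : ℝ) (hf : DifferentiableAt ℝ f p) :
    D v (fun q => c * f q) p = c * D v f p := by
  simp only [D]
  rw [(hf.hasFDerivAt.const_mul c).fderiv]; simp

theorem D_mul (v : F) (hf : DifferentiableAt ℝ f p) (hg : DifferentiableAt ℝ g p) :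
    D v (fun q => f q * g q) p = f p * D v g p + g p * D v f p := by
  simp only [D]
  rw [(hf.hasFDerivAt.fun_mul hg.hasFDerivAt).fderiv]; simp

theorem D_log (v : F) (hf : DifferentiableAt ℝ f p) (h0 : f p ≠ 0) :
    D v (fun q => Real.log (f q)) p = D v f p / f p := by
  simp only [D]
  rw [(hf.hasFDerivAt.log h0).fderiv]; simp; field_simp

theorem evDiff (hf : ContDiffAt ℝ 2 f p) : ∀ᶠ q in 𝓝 p, DifferentiableAt ℝ f q := by
  exact (hf.eventually (by simp)).mono fun q hq => hq.differentiableAt (by norm_num)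

theorem D_D_add (v w : F) (hf : ContDiffAt ℝ 2 f p) (hg : ContDiffAt ℝ 2 g p) :
    D v (D w (fun q => f q + g q)) p = D v (D w f) p + D v (D w g) p := by
  have h1 : D w (fun q => f q + g q) =ᶠ[𝓝 p] fun q => D w f q + D w g q := by
    filter_upwards [evDiff hf, evDiff hg]
      with q h1 h2
    exact D_add w h1 h2
  rw [D_congr v h1, D_add v]
  · exact (contDiffAt_D w hf (m := 1) (by norm_num)).differentiableAt (by norm_num)
  · exact (contDiffAt_D w hg (m := 1) (by norm_num)).differentiableAt (by norm_num)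

theorem D_D_sub (v w : F) (hf : ContDiffAt ℝ 2 f p) (hg : ContDiffAt ℝ 2 g p) :
    D v (D w (fun q => f q - g q)) p = D v (D w f) p - D v (D w g) p := by
  have h1 : D w (fun q => f q - g q) =ᶠ[𝓝 p] fun q => D w f q - D w g q := by
    filter_upwards [evDiff hf, evDiff hg]
      with q h1 h2
    exact D_sub w h1 h2
  rw [D_congr v h1, D_sub v]
  · exact (contDiffAt_D w hf (m := 1) (by norm_num)).differentiableAt (by norm_num)
  · exact (contDiffAt_D w hg (m := 1) (by norm_num)).differentiableAt (by norm_num)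

theorem D_D_const_mul (v w : F) (c : ℝ) (hf : ContDiffAt ℝ 2 f p) :
    D v (D w (fun q => c * f q)) p = c * D v (D w f) p := by
  have h1 : D w (fun q => c * f q) =ᶠ[𝓝 p] fun q => c * D w f q := by
    filter_upwards [evDiff hf] with q h1
    exact D_const_mul w c h1
  rw [D_congr v h1, D_const_mul v]
  exact (contDiffAt_D w hf (m := 1) (by norm_num)).differentiableAt (by norm_num)

theorem D_D_mul (v w : F) (hf : ContDiffAt ℝ 2 f p) (hg : ContDiffAt ℝ 2 g p) :
    D v (D w (fun q => f q * g q)) p = f p * D v (D w g) p + D v f p * D w g p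
      + (g p * D v (D w f) p + D v g p * D w f p) := by
  have h1 : D w (fun q => f q * g q) =ᶠ[𝓝 p] fun q => f q * D w g q + g q * D w f q := by
    filter_upwards [evDiff hf, evDiff hg]
      with q h1 h2
    exact D_mul w h1 h2
  have df : DifferentiableAt ℝ f p := hf.differentiableAt (by norm_num)
  have dg : DifferentiableAt ℝ g p := hg.differentiableAt (by norm_num)
  have dDf : DifferentiableAt ℝ (D w f) p :=
    (contDiffAt_D w hf (m := 1) (by norm_num)).differentiableAt (by norm_num)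
  have dDg : DifferentiableAt ℝ (D w g) p :=
    (contDiffAt_D w hg (m := 1) (by norm_num)).differentiableAt (by norm_num)
  rw [D_congr v h1, D_add v (df.fun_mul dDg) (dg.fun_mul dDf), D_mul v df dDg, D_mul v dg dDf]
  ring

theorem D_D_log (v w : F) (hf : ContDiffAt ℝ 2 f p) (h0 : f p ≠ 0) :
    D v (D w (fun q => Real.log (f q))) p
      = D v (D w f) p / f p - D v f p * D w f p / (f p) ^ 2 := by
  -- differentiate `f * D (log f) = D f`
  have hlog : ContDiffAt ℝ 2 (fun q => Real.log (f q)) p := hf.log h0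
  have hne : ∀ᶠ q in 𝓝 p, f q ≠ 0 := hf.continuousAt.eventually_ne h0
  have df : DifferentiableAt ℝ f p := hf.differentiableAt (by norm_num)
  have dDl : DifferentiableAt ℝ (D w (fun q => Real.log (f q))) p :=
    (contDiffAt_D w hlog (m := 1) (by norm_num)).differentiableAt (by norm_num)
  have h1 : (fun q => f q * D w (fun q => Real.log (f q)) q) =ᶠ[𝓝 p] D w f := by
    filter_upwards [evDiff hf, hne] with q h1 h2
    rw [D_log w h1 h2]; field_simp
  have h2 := D_congr v h1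
  rw [D_mul v df dDl, D_log w df h0] at h2
  field_simp
  field_simp at h2
  linarith

/-! ### The operator `L` -/

variable {E : Type*} [NormedAddCommGroup E] [NormedSpace ℝ E] {ι : Type*} [Fintype ι]

/-- heat operator at `p` with spatial frame `W` -/
noncomputable def L (W : ι → E) (f : ℝ × E → ℝ) (p : ℝ × E) : ℝ :=
  D ((1 : ℝ), (0 : E)) f p - ∑ c, D ((0 : ℝ), W c) (D ((0 : ℝ), W c) f) p

/-- gradient product at `p` with spatial frame `W` -/
noncomputable def G (W : ι → E) (f g : ℝ × E → ℝ) (p : ℝ × E) : ℝ :=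
  ∑ c, D ((0 : ℝ), W c) f p * D ((0 : ℝ), W c) g p

variable {W : ι → E} {f g : ℝ × E → ℝ} {p : ℝ × E}

theorem L_congr (h : f =ᶠ[𝓝 p] g) : L W f p = L W g p := by
  unfold L
  rw [D_congr _ h]
  congr 1
  exact Finset.sum_congr rfl fun c _ => D_D_congr _ _ h

theorem G_comm : G W f g p = G W g f p := by
  unfold G; exact Finset.sum_congr rfl fun c _ => mul_comm _ _

theorem L_add (hf : ContDiffAt ℝ 2 f p) (hg : ContDiffAt ℝ 2 g p) :
    L W (fun q => f q + g q) p = L W f p + L W g p := by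
  unfold L
  rw [D_add _ (hf.differentiableAt (by norm_num)) (hg.differentiableAt (by norm_num))]
  simp_rw [D_D_add _ _ hf hg]
  rw [Finset.sum_add_distrib]; ring

theorem L_sub (hf : ContDiffAt ℝ 2 f p) (hg : ContDiffAt ℝ 2 g p) :
    L W (fun q => f q - g q) p = L W f p - L W g p := by
  unfold L
  rw [D_sub _ (hf.differentiableAt (by norm_num)) (hg.differentiableAt (by norm_num))]
  simp_rw [D_D_sub _ _ hf hg]
  rw [Finset.sum_sub_distrib]; ring

theorem L_const_mul (c : ℝ) (hf : ContDiffAt ℝ 2 f p) :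
    L W (fun q => c * f q) p = c * L W f p := by
  unfold L
  rw [D_const_mul _ _ (hf.differentiableAt (by norm_num))]
  simp_rw [D_D_const_mul _ _ _ hf]
  rw [← Finset.mul_sum]; ring

theorem L_mul (hf : ContDiffAt ℝ 2 f p) (hg : ContDiffAt ℝ 2 g p) :
    L W (fun q => f q * g q) p = f p * L W g p + g p * L W f p - 2 * G W f g p := by
  unfold L G
  rw [D_mul _ (hf.differentiableAt (by norm_num)) (hg.differentiableAt (by norm_num))]
  simp_rw [D_D_mul _ _ hf hg]
  have : ∀ c, f p * D ((0:ℝ), W c) (D ((0:ℝ), W c) g) p + D ((0:ℝ), W c) f p * D ((0:ℝ), W c) g p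
      + (g p * D ((0:ℝ), W c) (D ((0:ℝ), W c) f) p + D ((0:ℝ), W c) g p * D ((0:ℝ), W c) f p)
      = f p * D ((0:ℝ), W c) (D ((0:ℝ), W c) g) p + g p * D ((0:ℝ), W c) (D ((0:ℝ), W c) f) p
        + 2 * (D ((0:ℝ), W c) f p * D ((0:ℝ), W c) g p) := by intro c; ring
  simp_rw [this]
  rw [Finset.sum_add_distrib, Finset.sum_add_distrib, ← Finset.mul_sum, ← Finset.mul_sum,
    ← Finset.mul_sum]
  ring

/-- `L` of a sum -/
theorem L_sum {κ : Type*} (s : Finset κ) {f : κ → ℝ × E → ℝ}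
    (hf : ∀ k ∈ s, ContDiffAt ℝ 2 (f k) p) :
    L W (fun q => ∑ k ∈ s, f k q) p = ∑ k ∈ s, L W (f k) p := by
  classical
  induction s using Finset.induction_on with
  | empty =>
    simp only [Finset.sum_empty]
    unfold L
    have h0 : ∀ v : ℝ × E, D v (fun _ : ℝ × E => (0:ℝ)) = fun _ => 0 := by
      intro v; funext q; exact D_const 0 v q
    simp [h0]
  | insert a s ha ih =>
    have h1 : (fun q => ∑ k ∈ insert a s, f k q) = fun q => f a q + ∑ k ∈ s, f k q := by
      funext q; rw [Finset.sum_insert ha]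
    rw [h1, L_add (hf a (Finset.mem_insert_self a s))
      (ContDiffAt.sum fun k hk => hf k (Finset.mem_insert_of_mem hk)), Finset.sum_insert ha,
      ih fun k hk => hf k (Finset.mem_insert_of_mem hk)]

/-- `L` of a linear function -/
theorem L_clm (A : ℝ × E →L[ℝ] ℝ) : L W (fun q => A q) p = A (1, 0) := by
  unfold L
  have h1 : ∀ v : ℝ × E, D v (fun q => A q) = fun _ => A v := by
    intro v; funext q; simp [D]
  have h2 : ∀ (v : ℝ × E) (c : ℝ), D v (fun _ : ℝ × E => c) = fun _ => 0 := by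
    intro v c; funext q; exact D_const c v q
  simp [h1, h2]

theorem L_log (hf : ContDiffAt ℝ 2 f p) (h0 : f p ≠ 0) :
    L W (fun q => Real.log (f q)) p = L W f p / f p + G W f f p / (f p) ^ 2 := by
  unfold L G
  rw [D_log _ (hf.differentiableAt (by norm_num)) h0]
  simp_rw [D_D_log _ _ hf h0]
  rw [Finset.sum_sub_distrib, ← Finset.sum_div, ← Finset.sum_div]
  ring

theorem G_add_left {h : ℝ × E → ℝ} (hf : DifferentiableAt ℝ f p) (hg : DifferentiableAt ℝ g p) :
    G W (fun q => f q + g q) h p = G W f h p + G W g h p := by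
  unfold G
  simp_rw [D_add _ hf hg, add_mul]
  rw [Finset.sum_add_distrib]

theorem G_mul_left {h : ℝ × E → ℝ} (hf : DifferentiableAt ℝ f p) (hg : DifferentiableAt ℝ g p) :
    G W (fun q => f q * g q) h p = f p * G W g h p + g p * G W f h p := by
  unfold G
  simp_rw [D_mul _ hf hg, add_mul]
  rw [Finset.sum_add_distrib, Finset.mul_sum, Finset.mul_sum]
  congr 1 <;> exact Finset.sum_congr rfl fun c _ => by ring

theorem G_self_nonneg : 0 ≤ G W f f p := by
  unfold G; exact Finset.sum_nonneg fun c _ => mul_self_nonneg _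

theorem G_congr_left {h : ℝ × E → ℝ} (hfg : f =ᶠ[𝓝 p] g) : G W f h p = G W g h p := by
  unfold G
  exact Finset.sum_congr rfl fun c _ => by rw [D_congr _ hfg]

/-- **The key inequality**: `V = (F - l)/l²`, `L l = -1`, `|∇l|² = F`, `L F = -S²` with
`|∇F|² ≤ F S²`. -/
theorem L_V_le {l Fn V : ℝ × E → ℝ} {SS : ℝ}
    (hl : ContDiffAt ℝ 2 l p) (hV : ContDiffAt ℝ 2 V p) (hl0 : 0 < l p) (hF0 : 0 < Fn p)
    (hFV : Fn =ᶠ[𝓝 p] fun q => l q + V q * (l q) ^ 2)
    (hLl : L W l p = -1) (hG : G W l l p = Fn p) (hLF : L W Fn p = -SS)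
    (hS : G W Fn Fn p ≤ Fn p * SS) :
    L W V p ≤ -2 * (V p) ^ 2 + 2 * G W V l p / Fn p := by
  have dl : DifferentiableAt ℝ l p := hl.differentiableAt (by norm_num)
  have dV : DifferentiableAt ℝ V p := hV.differentiableAt (by norm_num)
  have hll : ContDiffAt ℝ 2 (fun q => l q * l q) p := hl.mul hl
  have dll : DifferentiableAt ℝ (fun q => l q * l q) p := hll.differentiableAt (by norm_num)
  have hVll : ContDiffAt ℝ 2 (fun q => V q * (l q * l q)) p := hV.mul hll
  have dVll : DifferentiableAt ℝ (fun q => V q * (l q * l q)) p :=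
    hVll.differentiableAt (by norm_num)
  have hFV' : Fn =ᶠ[𝓝 p] fun q => l q + V q * (l q * l q) := by
    filter_upwards [hFV] with q hq
    rw [hq]; ring
  have hFp : Fn p = l p + V p * (l p * l p) := hFV'.self_of_nhds
  -- gradient
  have g1 : ∀ h : ℝ × E → ℝ, G W Fn h p
      = (1 + 2 * V p * l p) * G W l h p + l p * l p * G W V h p := by
    intro h
    rw [G_congr_left hFV', G_add_left dl dVll, G_mul_left dV dll, G_mul_left dl dl]
    ring
  have g2 : G W Fn Fn p = (1 + 2 * V p * l p) ^ 2 * Fn p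
      + 2 * (1 + 2 * V p * l p) * (l p * l p) * G W V l p
      + (l p * l p) ^ 2 * G W V V p := by
    rw [g1, G_comm, g1, G_comm (f := V) (g := Fn), g1, hG, G_comm (f := l) (g := V)]
    ring
  have gVV : 0 ≤ G W V V p := G_self_nonneg
  -- the operator
  have l1 : L W Fn p = -1 + (V p * (l p * (-1) + l p * (-1) - 2 * Fn p)
      + (l p * l p) * L W V p - 2 * (l p * G W V l p + l p * G W V l p)) := by
    rw [L_congr hFV', L_add hl hVll, L_mul hV hll, L_mul hl hl, hLl, hG,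
      G_comm (f := V) (g := fun q => l q * l q), G_mul_left dl dl, G_comm (f := l) (g := V)]
  rw [hLF] at l1
  set v := V p
  set a := l p
  set X := G W V l p
  set Y := G W V V p
  set f := Fn p
  set Lv := L W V p
  have hf : f = a + v * (a * a) := hFp
  rw [g2] at hS
  -- f * SS ≥ ..., SS = 1 - ... 
  have hSS : SS = 1 + 2 * v * (a + f) - a * a * Lv + 4 * a * X := by linarith
  have h1 : (1 + 2 * v * a) ^ 2 * f + 2 * (1 + 2 * v * a) * (a * a) * X ≤ f * SS := by
    have : 0 ≤ (a * a) ^ 2 * Y := by positivity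
    linarith
  rw [hSS] at h1
  -- conclude
  have h2 : a * a * (f * Lv) ≤ a * a * (-2 * v ^ 2 * f + 2 * X) := by
    have e : a * a * (-2 * v ^ 2 * f + 2 * X) =
        f * (1 + 2 * v * (a + f) + 4 * a * X)
          - ((1 + 2 * v * a) ^ 2 * f + 2 * (1 + 2 * v * a) * (a * a) * X) := by
      rw [hf]; ring
    rw [e]; nlinarith
  have h3 : f * Lv ≤ -2 * v ^ 2 * f + 2 * X := le_of_mul_le_mul_left h2 (by positivity)
  rw [← sub_nonneg] at h3 ⊢
  have : -2 * v ^ 2 + 2 * X / f - Lv = (-2 * v ^ 2 * f + 2 * X - f * Lv) / f := by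
    field_simp
  rw [this]
  positivity

end Pool.Agent.ToricKRF.LC

end
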