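import Pool.Agent.Work.MP_a2bf38_gt.Fu.TFlow
import Pool.Agent.Work.MP_a2bf38_gt.G.Lev

section

/-!
# The charts of a toric Kähler family: derivative formulas and positivity
-/

open scoped ContDiff
open Set

namespace Pool.Agent.ToricKRF

variable {n : ℕ} {ι : Type}

namespace SmoothCompleteFan

variable (F : SmoothCompleteFan n ι)

/-- `F.pt σ` as a continuous linear map. -/
noncomputable def ptL (σ : Fin n → ι) : (Fin n → ℝ) →L[ℝ] (Fin n → ℝ) :=
  ∑ k, (ContinuousLinearMap.proj (R := ℝ) (φ := fun _ : Fin n => ℝ) k).smulRight (F.vec (σ k))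

theorem ptL_apply (σ : Fin n → ι) (y : Fin n → ℝ) : F.ptL σ y = F.pt σ y := by
  simp [ptL, pt]

theorem pt_single (σ : Fin n → ι) (k : Fin n) (c : ℝ) :
    F.pt σ (Pi.single k c) = c • F.vec (σ k) := by
  classical
  unfold pt
  rw [Finset.sum_eq_single k]
  · simp
  · intro b _ hb
    simp [Pi.single_eq_of_ne hb]
  · simp

/-- The real matrix of the generators of `σ`. -/
noncomputable def mat (σ : Fin n → ι) : Matrix (Fin n) (Fin n) ℝ :=
  Matrix.of fun k j => F.vec (σ k) j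

theorem det_mat_sq {σ : Fin n → ι} (hσ : σ ∈ F.cones) : (F.mat σ).det ^ 2 = 1 := by
  have h1 : F.mat σ = (Matrix.of fun k j => F.ray (σ k) j).map (Int.castRingHom ℝ) := by
    ext k j
    simp [mat, vec]
  have h2 := F.unimodular σ hσ
  rw [h1, ← RingHom.mapMatrix_apply, ← RingHom.map_det, ← map_pow]
  rw [Int.isUnit_iff] at h2
  rcases h2 with h2 | h2 <;> rw [h2] <;> simp

theorem pt_apply (σ : Fin n → ι) (y : Fin n → ℝ) (j : Fin n) :
    F.pt σ y j = ∑ k, y k * F.vec (σ k) j := by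
  simp [pt, Finset.sum_apply]

theorem pt_eq_vecMul (σ : Fin n → ι) (y : Fin n → ℝ) :
    F.pt σ y = Matrix.vecMul y (F.mat σ) := by
  ext j
  rw [pt_apply]
  simp [Matrix.vecMul, dotProduct, mat]

theorem isUnit_mat {σ : Fin n → ι} (hσ : σ ∈ F.cones) : IsUnit (F.mat σ).det := by
  have := F.det_mat_sq hσ
  exact isUnit_iff_ne_zero.2 (by
    intro h
    rw [h] at this
    norm_num at this)

theorem exists_pt {σ : Fin n → ι} (hσ : σ ∈ F.cones) (x : Fin n → ℝ) : ∃ y, F.pt σ y = x := by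
  refine ⟨Matrix.vecMul x (F.mat σ)⁻¹, ?_⟩
  rw [pt_eq_vecMul, Matrix.vecMul_vecMul, Matrix.nonsing_inv_mul _ (F.isUnit_mat hσ),
    Matrix.vecMul_one]

theorem pt_injective {σ : Fin n → ι} (hσ : σ ∈ F.cones) : Function.Injective (F.pt σ) := by
  intro y y' h
  rw [pt_eq_vecMul, pt_eq_vecMul] at h
  have := congrArg (fun z => Matrix.vecMul z (F.mat σ)⁻¹) h
  simpa [Matrix.vecMul_vecMul, Matrix.mul_nonsing_inv _ (F.isUnit_mat hσ)] using this

theorem pt_zero (σ : Fin n → ι) : F.pt σ 0 = 0 := by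
  simp [pt]

/-- Each point lies in the negative of a maximal cone. -/
theorem exists_neg_cone (x : Fin n → ℝ) :
    ∃ σ ∈ F.cones, ∃ y : Fin n → ℝ, (∀ k, y k ≤ 0) ∧ F.pt σ y = x := by
  obtain ⟨σ, hσ, c, hc, hx⟩ := F.complete (-x)
  refine ⟨σ, hσ, -c, fun k => by simpa using hc k, ?_⟩
  ext j
  rw [pt_apply]
  have := hx j
  simp only [Pi.neg_apply] at this ⊢
  have h2 : x j = -∑ k, c k * (F.ray (σ k) j : ℝ) := by linarith
  rw [h2, ← Finset.sum_neg_distrib]
  exact Finset.sum_congr rfl fun k _ => by simp [vec]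

theorem injective_of_mem {σ : Fin n → ι} (hσ : σ ∈ F.cones) : Function.Injective σ := by
  classical
  intro k l h
  by_contra hkl
  have h1 : F.pt σ (Pi.single k 1) = F.pt σ (Pi.single l 1) := by
    rw [pt_single, pt_single, h]
  have h2 := congrFun (F.pt_injective hσ h1) k
  rw [Pi.single_eq_same, Pi.single_eq_of_ne hkl] at h2
  norm_num at h2

/-- If a ray lies in a maximal cone, it is one of its generators. -/
theorem mem_range_of_mem_cone {σ : Fin n → ι} (hσ : σ ∈ F.cones) {i : ι} {c : Fin n → ℝ}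
    (hc : ∀ k, 0 ≤ c k) (h : F.pt σ c = F.vec i) : i ∈ range σ := by
  classical
  obtain ⟨τ, hτ, k, rfl⟩ := F.used i
  refine F.inter τ hτ σ hσ (Pi.single k 1) c ?_ hc ?_ k (by simp)
  · intro l
    by_cases h' : l = k
    · subst h'; simp
    · simp [Pi.single_eq_of_ne h']
  · intro j
    have h1 : F.pt σ c j = F.vec (τ k) j := congrFun h j
    rw [pt_apply] at h1
    have h2 : F.pt τ (Pi.single k 1) j = F.vec (τ k) j := by rw [pt_single]; simp
    rw [pt_apply] at h2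
    simp only [vec] at h1 h2
    rw [h1, h2]

end SmoothCompleteFan

/-- The data of a chart of a toric Kähler family. -/
structure ChartData (F : SmoothCompleteFan n ι) (T : ℝ) (φ : ℝ × (Fin n → ℝ) → ℝ)
    (σ : Fin n → ι) where
  mem : σ ∈ F.cones
  U : Set (ℝ × (Fin n → ℝ))
  isOpen_U : IsOpen U
  sub_U : Ico 0 T ×ˢ univ ⊆ U
  smooth_φ : ContDiffOn ℝ ∞ φ U
  v : ℝ → Fin n → ℝ
  ψ : ℝ × (Fin n → ℝ) → ℝ
  W : Set (ℝ × (Fin n → ℝ))
  isOpen_W : IsOpen W
  sub_W : Ico 0 T ×ˢ {r : Fin n → ℝ | ∀ k, 0 ≤ r k} ⊆ W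
  smooth_ψ : ContDiffOn ℝ ∞ ψ W
  eqn : ∀ t ∈ Ico 0 T, ∀ y : Fin n → ℝ,
      φ (t, F.pt σ y) = ∑ k, v t k * y k + ψ (t, fun k => Real.exp (y k))
  pos : ∀ t ∈ Ico 0 T, ∀ z : Fin n → ℝ, (chartMetric ψ t z).PosDef

theorem exists_chartData {F : SmoothCompleteFan n ι} {T : ℝ} {φ : ℝ × (Fin n → ℝ) → ℝ}
    (h : IsToricKahlerFamily F T φ) {U : Set (ℝ × (Fin n → ℝ))} (hU : IsOpen U)
    (hsub : Ico 0 T ×ˢ univ ⊆ U) (hφ : ContDiffOn ℝ ∞ φ U)
    {σ : Fin n → ι} (hσ : σ ∈ F.cones) :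
    ∃ d : ChartData F T φ σ, d.U = U := by
  obtain ⟨v, ψ, ⟨W, hW, hsubW, hψ⟩, h1, h2⟩ := h.extends_chart σ hσ
  exact ⟨⟨hσ, U, hU, hsub, hφ, v, ψ, W, hW, hsubW, hψ, h1, h2⟩, rfl⟩

namespace ChartData

variable {F : SmoothCompleteFan n ι} {T : ℝ} {φ : ℝ × (Fin n → ℝ) → ℝ} {σ : Fin n → ι}
  (d : ChartData F T φ σ)

theorem mem_W {t : ℝ} (ht : t ∈ Ico 0 T) {r : Fin n → ℝ} (hr : ∀ k, 0 ≤ r k) : (t, r) ∈ d.W :=
  d.sub_W ⟨ht, hr⟩

theorem mem_U {t : ℝ} (ht : t ∈ Ico 0 T) (x : Fin n → ℝ) : (t, x) ∈ d.U :=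
  d.sub_U ⟨ht, mem_univ _⟩

theorem smooth_ψ1 (k : Fin n) : ContDiffOn ℝ ∞ (dx k d.ψ) d.W :=
  contDiffOn_D d.isOpen_W d.smooth_ψ _

theorem smooth_ψ2 (k l : Fin n) : ContDiffOn ℝ ∞ (dx k (dx l d.ψ)) d.W :=
  contDiffOn_D d.isOpen_W (d.smooth_ψ1 l) _

/-- Derivative of `y ↦ f (t, exp y)`. -/
theorem hasFDerivAt_comp_exp {f : ℝ × (Fin n → ℝ) → ℝ} {t : ℝ} {y : Fin n → ℝ}
    (hf : DifferentiableAt ℝ f (t, fun k => Real.exp (y k))) (a : Fin n → ℝ) :
    DifferentiableAt ℝ (fun y : Fin n → ℝ => f (t, fun k => Real.exp (y k))) y ∧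
    D a (fun y : Fin n → ℝ => f (t, fun k => Real.exp (y k))) y =
      ∑ k, a k * (Real.exp (y k) * dx k f (t, fun k => Real.exp (y k))) := by
  have h1 : HasFDerivAt (fun y : Fin n → ℝ => ((t, fun k => Real.exp (y k)) : ℝ × (Fin n → ℝ)))
      ((0 : (Fin n → ℝ) →L[ℝ] ℝ).prod (ContinuousLinearMap.pi fun k =>
        Real.exp (y k) • ContinuousLinearMap.proj (R := ℝ) (φ := fun _ : Fin n => ℝ) k)) y := by
    refine (hasFDerivAt_const t y).prodMk (hasFDerivAt_pi.2 fun k => ?_)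
    exact (ContinuousLinearMap.proj (R := ℝ) (φ := fun _ : Fin n => ℝ) k).hasFDerivAt.exp
  have h2 := hf.hasFDerivAt.comp y h1
  refine ⟨h2.differentiableAt, ?_⟩
  have h3 : D a (fun y : Fin n → ℝ => f (t, fun k => Real.exp (y k))) y =
      D ((0 : ℝ), fun k => Real.exp (y k) * a k) f (t, fun k => Real.exp (y k)) := by
    simp only [D]
    have h4 : (fun y : Fin n → ℝ => f (t, fun k => Real.exp (y k))) =
      f ∘ (fun y : Fin n → ℝ => (t, fun k => Real.exp (y k))) := rfl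
    rw [h4, h2.fderiv]
    simp
  rw [h3]
  have h5 : (fun k => Real.exp (y k) * a k) = ∑ k, (Real.exp (y k) * a k) • Pi.single k (1 : ℝ) := by
    ext j
    simp [Finset.sum_apply, Pi.single_apply]
  rw [h5, D_dir_sum_snd]
  refine Finset.sum_congr rfl fun k _ => ?_
  simp only [dx]
  ring

/-- First derivatives in a chart. -/
theorem D_φ {t : ℝ} (ht : t ∈ Ico 0 T) (y a : Fin n → ℝ) :
    D (0, F.pt σ a) φ (t, F.pt σ y) =
      ∑ k, a k * (d.v t k + Real.exp (y k) * dx k d.ψ (t, fun k => Real.exp (y k))) := by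
  have hφ : DifferentiableAt ℝ φ (t, F.pt σ y) :=
    diffAt_of_contDiffOn d.isOpen_U d.smooth_φ (d.mem_U ht _)
  have hψ : DifferentiableAt ℝ d.ψ (t, fun k => Real.exp (y k)) :=
    diffAt_of_contDiffOn d.isOpen_W d.smooth_ψ (d.mem_W ht fun k => (Real.exp_pos _).le)
  have h1 : D a (fun y => φ (t, F.pt σ y)) y = D (0, F.pt σ a) φ (t, F.pt σ y) := by
    have h2 : DifferentiableAt ℝ (fun x => φ (t, x)) (F.ptL σ y) := by
      rw [F.ptL_apply]
      exact hφ.comp (F.pt σ y) ((differentiableAt_const t).prodMk differentiableAt_id)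
    have h3 := D_comp_linear (F.ptL σ) h2 a
    simp only [F.ptL_apply] at h3
    rw [h3, ← D_slice hφ]
  rw [← h1]
  have h4 : (fun y => φ (t, F.pt σ y)) =
      fun y => (∑ k, d.v t k * y k) + d.ψ (t, fun k => Real.exp (y k)) := by
    funext y
    exact d.eqn t ht y
  obtain ⟨h5, h6⟩ := hasFDerivAt_comp_exp hψ a
  have h7 : ∀ k : Fin n, DifferentiableAt ℝ (fun y : Fin n → ℝ => y k) y := fun k =>
    (ContinuousLinearMap.proj (R := ℝ) (φ := fun _ : Fin n => ℝ) k).differentiableAt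
  have h8 : ∀ k : Fin n, DifferentiableAt ℝ (fun y : Fin n → ℝ => d.v t k * y k) y :=
    fun k => (h7 k).const_mul _
  rw [h4, D_add (DifferentiableAt.fun_sum fun k _ => h8 k) h5, h6, D_sum _ (fun k _ => h8 k),
    ← Finset.sum_add_distrib]
  refine Finset.sum_congr rfl fun k _ => ?_
  have h9 : D a (fun y : Fin n → ℝ => y k) y = a k := by
    have : (fun y : Fin n → ℝ => y k) =
      (ContinuousLinearMap.proj (R := ℝ) (φ := fun _ : Fin n => ℝ) k) := rfl
    simp only [D]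
    rw [this, ContinuousLinearMap.fderiv]
    rfl
  rw [D_const_mul _ (h7 k), h9]
  ring

/-- Second derivatives in a chart. -/
theorem DD_φ {t : ℝ} (ht : t ∈ Ico 0 T) (y a b : Fin n → ℝ) :
    D (0, F.pt σ a) (D (0, F.pt σ b) φ) (t, F.pt σ y) =
      ∑ k, ∑ l, a k * b l * (Real.exp (y k / 2) * Real.exp (y l / 2) *
        chartMetric d.ψ t (fun k => Real.exp (y k / 2)) k l) := by
  classical
  have hφ' : ContDiffOn ℝ ∞ (D (0, F.pt σ b) φ) d.U :=
    contDiffOn_D d.isOpen_U d.smooth_φ _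
  have hφ : DifferentiableAt ℝ (D (0, F.pt σ b) φ) (t, F.pt σ y) :=
    diffAt_of_contDiffOn d.isOpen_U hφ' (d.mem_U ht _)
  have hψ : ∀ k, DifferentiableAt ℝ (dx k d.ψ) (t, fun k => Real.exp (y k)) := fun k =>
    diffAt_of_contDiffOn d.isOpen_W (d.smooth_ψ1 k) (d.mem_W ht fun k => (Real.exp_pos _).le)
  have h1 : D a (fun y => D (0, F.pt σ b) φ (t, F.pt σ y)) y =
      D (0, F.pt σ a) (D (0, F.pt σ b) φ) (t, F.pt σ y) := by
    have h2 : DifferentiableAt ℝ (fun x => D (0, F.pt σ b) φ (t, x)) (F.ptL σ y) := by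
      rw [F.ptL_apply]
      exact hφ.comp (F.pt σ y) ((differentiableAt_const t).prodMk differentiableAt_id)
    have h3 := D_comp_linear (F.ptL σ) h2 a
    simp only [F.ptL_apply] at h3
    rw [h3, ← D_slice hφ]
  rw [← h1]
  have h4 : (fun y => D (0, F.pt σ b) φ (t, F.pt σ y)) =
      fun y => ∑ l, b l * (d.v t l + Real.exp (y l) * dx l d.ψ (t, fun k => Real.exp (y k))) := by
    funext y
    exact d.D_φ ht y b
  have h7 : ∀ k : Fin n, DifferentiableAt ℝ (fun y : Fin n → ℝ => y k) y := fun k =>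
    (ContinuousLinearMap.proj (R := ℝ) (φ := fun _ : Fin n => ℝ) k).differentiableAt
  have h9 : ∀ k, D a (fun y : Fin n → ℝ => y k) y = a k := by
    intro k
    have : (fun y : Fin n → ℝ => y k) =
      (ContinuousLinearMap.proj (R := ℝ) (φ := fun _ : Fin n => ℝ) k) := rfl
    simp only [D]
    rw [this, ContinuousLinearMap.fderiv]
    rfl
  have hexp : ∀ k, DifferentiableAt ℝ (fun y : Fin n → ℝ => Real.exp (y k)) y :=
    fun k => (h7 k).exp
  have hm : ∀ l, DifferentiableAt ℝ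
      (fun y : Fin n → ℝ => Real.exp (y l) * dx l d.ψ (t, fun k => Real.exp (y k))) y :=
    fun l => (hexp l).mul (hasFDerivAt_comp_exp (hψ l) a).1
  have hs : ∀ l, DifferentiableAt ℝ
      (fun y : Fin n → ℝ => d.v t l + Real.exp (y l) * dx l d.ψ (t, fun k => Real.exp (y k))) y :=
    fun l => (differentiableAt_const _).add (hm l)
  rw [h4, D_sum _ (fun l _ => (hs l).const_mul _), Finset.sum_comm]
  refine Finset.sum_congr rfl fun l _ => ?_
  rw [D_const_mul _ (hs l), D_add (differentiableAt_const _) (hm l), D_const, zero_add,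
    D_mul (hexp l) (hasFDerivAt_comp_exp (hψ l) a).1, (hasFDerivAt_comp_exp (hψ l) a).2,
    D_comp (h7 l) (Real.hasDerivAt_exp _), h9]
  have hsq : ∀ j, Real.exp (y j / 2) ^ 2 = Real.exp (y j) := by
    intro j
    rw [← Real.exp_nat_mul]
    congr 1
    push_cast
    ring
  have hsq2 : (fun j => Real.exp (y j / 2) ^ 2) = fun j => Real.exp (y j) := by
    funext j
    exact hsq j
  have hk : ∀ k, a k * b l * (Real.exp (y k / 2) * Real.exp (y l / 2) *
        chartMetric d.ψ t (fun k => Real.exp (y k / 2)) k l) =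
      (if k = l then a k * b l * (Real.exp (y k) * dx k d.ψ (t, fun k => Real.exp (y k))) else 0) +
      b l * Real.exp (y l) * (a k * (Real.exp (y k) *
        dx k (dx l d.ψ) (t, fun k => Real.exp (y k)))) := by
    intro k
    simp only [chartMetric, Matrix.of_apply, hsq2]
    by_cases h : k = l
    · subst h
      simp only [if_true]
      have := hsq k
      linear_combination (a k * b k * dx k d.ψ (t, fun k => Real.exp (y k)) +
        a k * b k * (Real.exp (y k) + Real.exp (y k / 2) ^ 2) *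
          dx k (dx k d.ψ) (t, fun k => Real.exp (y k))) * this
    · simp only [if_neg h]
      have h1 := hsq k
      have h2 := hsq l
      linear_combination (a k * b l * dx k (dx l d.ψ) (t, fun k => Real.exp (y k)) *
        Real.exp (y l / 2) ^ 2) * h1 + (a k * b l * dx k (dx l d.ψ) (t, fun k => Real.exp (y k)) *
        Real.exp (y k)) * h2
  rw [Finset.sum_congr rfl fun k _ => hk k, Finset.sum_add_distrib, Finset.sum_ite_eq']
  simp only [Finset.mem_univ, if_true]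
  rw [← Finset.mul_sum]
  ring

/-- The Hessian matrix in the basis of `σ`. -/
theorem DD_vec {t : ℝ} (ht : t ∈ Ico 0 T) (y : Fin n → ℝ) (k l : Fin n) :
    D (0, F.vec (σ k)) (D (0, F.vec (σ l)) φ) (t, F.pt σ y) =
      Real.exp (y k / 2) * Real.exp (y l / 2) *
        chartMetric d.ψ t (fun k => Real.exp (y k / 2)) k l := by
  classical
  have h := d.DD_φ ht y (Pi.single k 1) (Pi.single l 1)
  rw [F.pt_single, F.pt_single, one_smul, one_smul] at h
  rw [h, Finset.sum_eq_single k, Finset.sum_eq_single l]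
  · simp
  · intro b _ hb
    simp [Pi.single_eq_of_ne hb]
  · simp
  · intro b _ hb
    simp [Pi.single_eq_of_ne hb]
  · simp

theorem D_vec {t : ℝ} (ht : t ∈ Ico 0 T) (y : Fin n → ℝ) (k : Fin n) :
    D (0, F.vec (σ k)) φ (t, F.pt σ y) =
      d.v t k + Real.exp (y k) * dx k d.ψ (t, fun k => Real.exp (y k)) := by
  classical
  have h := d.D_φ ht y (Pi.single k 1)
  rw [F.pt_single, one_smul] at h
  rw [h, Finset.sum_eq_single k]
  · simp
  · intro b _ hb
    simp [Pi.single_eq_of_ne hb]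
  · simp

theorem quad_eq (t : ℝ) (z ξ : Fin n → ℝ) :
    ξ ⬝ᵥ ((chartMetric d.ψ t z).mulVec ξ) = ∑ k, ∑ l, ξ k * ξ l * chartMetric d.ψ t z k l := by
  simp only [dotProduct, Matrix.mulVec, Finset.mul_sum]
  refine Finset.sum_congr rfl fun k _ => Finset.sum_congr rfl fun l _ => ?_
  ring

theorem quad_pos {t : ℝ} (ht : t ∈ Ico 0 T) (z : Fin n → ℝ) {ξ : Fin n → ℝ} (hξ : ξ ≠ 0) :
    0 < ∑ k, ∑ l, ξ k * ξ l * chartMetric d.ψ t z k l := by
  rw [← d.quad_eq]
  simpa using (d.pos t ht z).dotProduct_mulVec_pos hξ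

/-- Second derivatives as a quadratic form. -/
theorem DD_quad {t : ℝ} (ht : t ∈ Ico 0 T) (y a : Fin n → ℝ) :
    D (0, F.pt σ a) (D (0, F.pt σ a) φ) (t, F.pt σ y) =
      ∑ k, ∑ l, (a k * Real.exp (y k / 2)) * (a l * Real.exp (y l / 2)) *
        chartMetric d.ψ t (fun k => Real.exp (y k / 2)) k l := by
  rw [d.DD_φ ht]
  refine Finset.sum_congr rfl fun k _ => Finset.sum_congr rfl fun l _ => ?_
  ring

include d in
theorem hess_pos {t : ℝ} (ht : t ∈ Ico 0 T) (x : Fin n → ℝ) {w : Fin n → ℝ} (hw : w ≠ 0) :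
    0 < D (0, w) (D (0, w) φ) (t, x) := by
  obtain ⟨y, rfl⟩ := F.exists_pt d.mem x
  obtain ⟨a, rfl⟩ := F.exists_pt d.mem w
  rw [d.DD_quad ht]
  apply d.quad_pos ht
  intro h
  apply hw
  have : a = 0 := by
    ext k
    have := congrFun h k
    simpa [Real.exp_ne_zero] using this
  rw [this, F.pt_zero]

/-- The diagonal entries of the metric in the chart. -/
theorem diag_pos {t : ℝ} (ht : t ∈ Ico 0 T) (z : Fin n → ℝ) (k : Fin n) :
    0 < chartMetric d.ψ t z k k := by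
  exact (d.pos t ht z).diag_pos

/-- `∂_k ψ` is positive on `r ≥ 0`. -/
theorem psi_pos {t : ℝ} (ht : t ∈ Ico 0 T) {r : Fin n → ℝ} (hr : ∀ k, 0 ≤ r k) (k : Fin n) :
    0 < dx k d.ψ (t, r) := by
  classical
  -- the diagonal entry
  have hdiag : ∀ r : Fin n → ℝ, (∀ k, 0 ≤ r k) →
      0 < dx k d.ψ (t, r) + r k * dx k (dx k d.ψ) (t, r) := by
    intro r hr
    have h := d.diag_pos ht (fun j => √(r j)) k
    have h2 : (fun j => √(r j) ^ 2) = r := by
      funext j
      exact Real.sq_sqrt (hr j)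
    simp only [chartMetric, Matrix.of_apply, if_true, h2] at h
    rwa [Real.mul_self_sqrt (hr k)] at h
  rcases (hr k).eq_or_lt with h0 | h0
  · have := hdiag r hr
    rw [← h0, zero_mul, add_zero] at this
    exact this
  · -- move the `k`-th coordinate from `0` to `r k`
    have hmem : ∀ s : ℝ, 0 ≤ s → ∀ j, 0 ≤ (Function.update r k s) j := by
      intro s hs j
      by_cases hj : j = k
      · subst hj; simpa using hs
      · simpa [Function.update_of_ne hj] using hr j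
    have hline : ∀ s : ℝ, ((t, Function.update r k s) : ℝ × (Fin n → ℝ)) =
        (t, Function.update r k 0) + s • ((0 : ℝ), Pi.single k (1 : ℝ)) := by
      intro s
      ext j
      · simp
      · by_cases hj : j = k
        · subst hj; simp
        · simp [Function.update_of_ne hj, Pi.single_eq_of_ne hj]
    have hder : ∀ s : ℝ, 0 ≤ s → HasDerivAt (fun s => s * dx k d.ψ (t, Function.update r k s))
        (dx k d.ψ (t, Function.update r k s) +
          s * dx k (dx k d.ψ) (t, Function.update r k s)) s := by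
      intro s hs
      have h1 : DifferentiableAt ℝ (dx k d.ψ)
          ((t, Function.update r k 0) + s • ((0 : ℝ), Pi.single k (1 : ℝ))) := by
        rw [← hline]
        exact diffAt_of_contDiffOn d.isOpen_W (d.smooth_ψ1 k) (d.mem_W ht (hmem s hs))
      have h2 := hasDerivAt_line h1
      have h3 : (fun r' : ℝ => dx k d.ψ
          ((t, Function.update r k 0) + r' • ((0 : ℝ), Pi.single k (1 : ℝ)))) =
          fun s => dx k d.ψ (t, Function.update r k s) := by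
        funext s'
        rw [← hline]
      rw [h3, ← hline] at h2
      have h4 := (hasDerivAt_id s).fun_mul h2
      simpa [dx] using h4
    have hmono : StrictMonoOn (fun s => s * dx k d.ψ (t, Function.update r k s)) (Ici 0) := by
      apply strictMonoOn_of_deriv_pos (convex_Ici 0)
      · intro s hs
        exact (hder s hs).continuousAt.continuousWithinAt
      · intro s hs
        rw [interior_Ici] at hs
        rw [(hder s hs.le).deriv]
        have := hdiag _ (hmem s hs.le)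
        simpa using this
    have h5 := hmono (mem_Ici.2 le_rfl) (mem_Ici.2 h0.le) h0
    simp only [zero_mul, Function.update_eq_self] at h5
    exact (mul_pos_iff_of_pos_left h0).1 h5

end ChartData

end Pool.Agent.ToricKRF

end

section

/-!
# The charts of a Kähler family on a toric manifold
-/

open scoped ContDiff ENNReal ComplexOrder
open Set Filter Topology

namespace Pool.Agent.ToricKRF.G

variable {n : ℕ} {ι : Type}

/-! ### Slices -/

theorem D_slice' {V : Type*} [NormedAddCommGroup V] [NormedSpace ℝ V] {f : ℝ × V → ℝ} {t : ℝ}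
    {x : V} (hf : DifferentiableAt ℝ f (t, x)) (w : V) :
    D (0, w) f (t, x) = D w (fun y => f (t, y)) x := by
  simp only [D]
  have h1 : HasFDerivAt (fun y : V => ((t, y) : ℝ × V))
      (ContinuousLinearMap.inr ℝ ℝ V) x := by
    exact (hasFDerivAt_const t x).prodMk (hasFDerivAt_id (𝕜 := ℝ) x)
  have h2 := (hf.hasFDerivAt.comp x h1).fderiv
  have h4 : (fun y => f (t, y)) = f ∘ fun y => (t, y) := rfl
  rw [h4, h2]
  simp

/-- The Levi form of a function on `ℂ^n`. -/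
noncomputable def lev0 (f : Cn n → ℝ) (u : Cn n) (z : Cn n) : ℝ :=
  (D u (D u f) z + D (J u) (D (J u) f) z) / 4

theorem lev_eq_lev0 {f : ℝ × Cn n → ℝ} {U : Set (ℝ × Cn n)} (hU : IsOpen U)
    (hf : ContDiffOn ℝ ∞ f U) {t : ℝ} (ht : ∀ w, (t, w) ∈ U) (u w : Cn n) :
    lev f u (t, w) = lev0 (fun y => f (t, y)) u w := by
  have h1 : ∀ v : Cn n, ∀ w : Cn n, D (0, v) f (t, w) = D v (fun y => f (t, y)) w := fun v w =>
    D_slice' (diffAt_of_contDiffOn hU hf (ht w)) v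
  have h2 : ∀ v : Cn n, D (0, v) (D (0, v) f) (t, w) = D v (D v (fun y => f (t, y))) w := by
    intro v
    rw [D_slice' (diffAt_of_contDiffOn hU (contDiffOn_D hU hf _) (ht w))]
    congr 1
    funext y
    exact h1 v y
  simp only [lev, lev0, h2]

theorem contDiff_slice {f : ℝ × Cn n → ℝ} {U : Set (ℝ × Cn n)} (hU : IsOpen U)
    (hf : ContDiffOn ℝ ∞ f U) {t : ℝ} (ht : ∀ w, (t, w) ∈ U) : ContDiff ℝ ∞ fun y => f (t, y) := by
  rw [contDiff_iff_contDiffAt]
  intro w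
  exact (hf.contDiffAt (hU.mem_nhds (ht w))).comp w (contDiffAt_const.prodMk contDiffAt_id)

/-! ### Complex multiplication and the exponential -/

/-- componentwise complex multiplication -/
def cmul (z u : Cn n) : Cn n :=
  (fun k => z.1 k * u.1 k - z.2 k * u.2 k, fun k => z.1 k * u.2 k + z.2 k * u.1 k)

/-- complex multiplication as a bilinear map -/
noncomputable def cmulL (u : Cn n) : Cn n →L[ℝ] Cn n :=
  LinearMap.toContinuousLinearMap
    { toFun := fun z => cmul z u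
      map_add' := by
        intro x y
        ext k <;> simp [cmul] <;> ring
      map_smul' := by
        intro c x
        ext k <;> simp [cmul] <;> ring }

theorem cmulL_apply (u z : Cn n) : cmulL u z = cmul z u := rfl

/-- complex multiplication as a bilinear map -/
noncomputable def cmulR (z : Cn n) : Cn n →L[ℝ] Cn n :=
  LinearMap.toContinuousLinearMap
    { toFun := fun u => cmul z u
      map_add' := by
        intro x y
        ext k <;> simp [cmul] <;> ring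
      map_smul' := by
        intro c x
        ext k <;> simp [cmul] <;> ring }

theorem cmulR_apply (z u : Cn n) : cmulR z u = cmul z u := rfl

theorem hasFDerivAt_cexp (ζ : Cn n) : HasFDerivAt (cexp (n := n)) (cmulR (cexp ζ)) ζ := by
  have p1 : ∀ k, HasFDerivAt (fun ζ : Cn n => ζ.1 k)
      ((ContinuousLinearMap.proj (R := ℝ) (φ := fun _ : Fin n => ℝ) k).comp
        (ContinuousLinearMap.fst ℝ (Fin n → ℝ) (Fin n → ℝ))) ζ := fun k =>
    ((ContinuousLinearMap.proj (R := ℝ) (φ := fun _ : Fin n => ℝ) k).comp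
        (ContinuousLinearMap.fst ℝ (Fin n → ℝ) (Fin n → ℝ))).hasFDerivAt
  have p2 : ∀ k, HasFDerivAt (fun ζ : Cn n => ζ.2 k)
      ((ContinuousLinearMap.proj (R := ℝ) (φ := fun _ : Fin n => ℝ) k).comp
        (ContinuousLinearMap.snd ℝ (Fin n → ℝ) (Fin n → ℝ))) ζ := fun k =>
    ((ContinuousLinearMap.proj (R := ℝ) (φ := fun _ : Fin n => ℝ) k).comp
        (ContinuousLinearMap.snd ℝ (Fin n → ℝ) (Fin n → ℝ))).hasFDerivAt
  have e1 : ∀ k, HasFDerivAt (fun ζ : Cn n => Real.exp (ζ.1 k) * Real.cos (ζ.2 k)) _ ζ := fun k =>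
    (p1 k).exp.mul (p2 k).cos
  have e2 : ∀ k, HasFDerivAt (fun ζ : Cn n => Real.exp (ζ.1 k) * Real.sin (ζ.2 k)) _ ζ := fun k =>
    (p1 k).exp.mul (p2 k).sin
  have h := (hasFDerivAt_pi.2 e1).prodMk (hasFDerivAt_pi.2 e2)
  refine HasFDerivAt.congr_fderiv (f := cexp (n := n)) h ?_
  ext u k <;> simp [cmulR_apply, cmul, cexp] <;> ring

theorem differentiable_cexp : Differentiable ℝ (cexp (n := n)) := fun ζ =>
  (hasFDerivAt_cexp ζ).differentiableAt

theorem fderiv_cexp (ζ u : Cn n) : fderiv ℝ (cexp (n := n)) ζ u = cmul (cexp ζ) u := by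
  rw [(hasFDerivAt_cexp ζ).fderiv]
  rfl

theorem D_comp_cexp {f : Cn n → ℝ} (hf : ContDiff ℝ ∞ f) (u ζ : Cn n) :
    D u (fun ζ => f (cexp ζ)) ζ = fderiv ℝ f (cexp ζ) (cmul (cexp ζ) u) := by
  have h1 := (hf.differentiable (by simp) (cexp ζ)).hasFDerivAt.comp ζ (hasFDerivAt_cexp ζ)
  have h2 : (fun ζ => f (cexp ζ)) = f ∘ cexp := rfl
  simp only [D]
  rw [h2, h1.fderiv]
  rfl

theorem DD_comp_cexp {f : Cn n → ℝ} (hf : ContDiff ℝ ∞ f) (u ζ : Cn n) :
    D u (D u (fun ζ => f (cexp ζ))) ζ =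
      fderiv ℝ (fderiv ℝ f) (cexp ζ) (cmul (cexp ζ) u) (cmul (cexp ζ) u) +
        fderiv ℝ f (cexp ζ) (cmul (cmul (cexp ζ) u) u) := by
  have hf' : ContDiff ℝ ∞ (fderiv ℝ f) := (contDiff_infty_iff_fderiv.1 hf).2
  have h0 : D u (fun ζ => f (cexp ζ)) = fun ζ => fderiv ℝ f (cexp ζ) (cmulL u (cexp ζ)) := by
    funext ζ
    rw [D_comp_cexp hf, cmulL_apply]
  have h1 : HasFDerivAt (fun ζ => fderiv ℝ f (cexp ζ)) _ ζ :=
    (hf'.differentiable (by simp) (cexp ζ)).hasFDerivAt.comp ζ (hasFDerivAt_cexp ζ)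
  have h2 : HasFDerivAt (fun ζ : Cn n => cmulL u (cexp ζ)) _ ζ :=
    (cmulL u).hasFDerivAt.comp ζ (hasFDerivAt_cexp ζ)
  have h3 := h1.clm_apply h2
  rw [h0]
  simp only [D]
  rw [h3.fderiv]
  simp only [cmulL_apply, add_apply, ContinuousLinearMap.comp_apply,
    ContinuousLinearMap.flip_apply, cmulR_apply]
  rw [add_comm]

theorem DD_eq_fderiv {V : Type*} [NormedAddCommGroup V] [NormedSpace ℝ V] {f : V → ℝ}
    (hf : ContDiff ℝ ∞ f) (u z : V) : D u (D u f) z = fderiv ℝ (fderiv ℝ f) z u u := by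
  have hf' : ContDiff ℝ ∞ (fderiv ℝ f) := (contDiff_infty_iff_fderiv.1 hf).2
  change fderiv ℝ (fun y => (fderiv ℝ f y) u) z u = _
  rw [fderiv_clm_apply (hf'.differentiable (by simp) z) (differentiableAt_const u)]
  simp

/-- The Levi form in exponential coordinates. -/
theorem lev0_cexp {f : Cn n → ℝ} (hf : ContDiff ℝ ∞ f) (u ζ : Cn n) :
    lev0 (fun ζ => f (cexp ζ)) u ζ = lev0 f (cmul (cexp ζ) u) (cexp ζ) := by
  simp only [lev0]
  rw [DD_comp_cexp hf, DD_comp_cexp hf, DD_eq_fderiv hf, DD_eq_fderiv hf]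
  have h1 : cmul (cexp ζ) (J u) = J (cmul (cexp ζ) u) := by
    ext k <;> simp [cmul, J] <;> ring
  have h2 : cmul (cmul (cexp ζ) (J u)) (J u) = -cmul (cmul (cexp ζ) u) u := by
    ext k <;> simp [cmul, J] <;> ring
  rw [h2, h1, map_neg]
  ring

/-- `lev0` of a sum with a real linear function. -/
theorem lev0_add_linear {f : Cn n → ℝ} (hf : ContDiff ℝ ∞ f) (L : Cn n →L[ℝ] ℝ) (u ζ : Cn n) :
    lev0 (fun ζ => L ζ + f ζ) u ζ = lev0 f u ζ := by
  have h1 : ∀ v : Cn n, D v (fun ζ => L ζ + f ζ) = fun ζ => L v + D v f ζ := by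
    intro v
    funext ζ
    rw [D_add L.differentiableAt (hf.differentiable (by simp) ζ)]
    simp [D]
  have h2 : ∀ v : Cn n, D v (D v (fun ζ => L ζ + f ζ)) ζ = D v (D v f) ζ := by
    intro v
    rw [h1]
    have hf' : ContDiff ℝ ∞ (fderiv ℝ f) := (contDiff_infty_iff_fderiv.1 hf).2
    have h3 : DifferentiableAt ℝ (D v f) ζ :=
      (hf'.differentiable (by simp) ζ).clm_apply (differentiableAt_const v)
    rw [D_add (differentiableAt_const _) h3, D_const, zero_add]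
  simp only [lev0, h2]

/-- `lev0` and a complex linear map. -/
theorem lev0_comp_linear {f : Cn n → ℝ} (hf : ContDiff ℝ ∞ f) (A : Cn n →L[ℝ] Cn n)
    (hA : ∀ u, A (J u) = J (A u)) (u ζ : Cn n) :
    lev0 (fun ζ => f (A ζ)) u ζ = lev0 f (A u) (A ζ) := by
  have h1 : ∀ v : Cn n, D v (fun ζ => f (A ζ)) = fun ζ => D (A v) f (A ζ) := by
    intro v
    funext ζ
    exact D_comp_linear A (hf.differentiable (by simp) _) v
  have hf' : ContDiff ℝ ∞ (fderiv ℝ f) := (contDiff_infty_iff_fderiv.1 hf).2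
  have h2 : ∀ v : Cn n, D v (D v (fun ζ => f (A ζ))) ζ = D (A v) (D (A v) f) (A ζ) := by
    intro v
    rw [h1]
    have h3 : DifferentiableAt ℝ (D (A v) f) (A ζ) :=
      (hf'.differentiable (by simp) _).clm_apply (differentiableAt_const _)
    exact D_comp_linear A h3 v
  simp only [lev0, h2, hA]

/-! ### The data of a chart -/

theorem ptL_apply' (F : SmoothCompleteFan n ι) (σ : Fin n → ι) (y : Fin n → ℝ) :
    F.ptL σ y = F.pt σ y := F.ptL_apply σ y

/-- `cpt F σ` as a linear map. -/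
noncomputable def cptL (F : SmoothCompleteFan n ι) (σ : Fin n → ι) : Cn n →L[ℝ] Cn n :=
  (F.ptL σ).prodMap (F.ptL σ)

theorem cptL_apply (F : SmoothCompleteFan n ι) (σ : Fin n → ι) (ζ : Cn n) :
    cptL F σ ζ = cpt F σ ζ := by
  change (F.ptL σ ζ.1, F.ptL σ ζ.2) = _
  rw [F.ptL_apply, F.ptL_apply]
  rfl

theorem cptL_J (F : SmoothCompleteFan n ι) (σ : Fin n → ι) (u : Cn n) :
    cptL F σ (J u) = J (cptL F σ u) := by
  simp [cptL, J]

/-- The data of a chart of a Kähler family. -/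
structure ChartG (F : SmoothCompleteFan n ι) (T : ℝ) (φ : ℝ × Cn n → ℝ) (σ : Fin n → ι) where
  mem : σ ∈ F.cones
  U : Set (ℝ × Cn n)
  isOpen_U : IsOpen U
  sub_U : Ico 0 T ×ˢ univ ⊆ U
  smooth_φ : ContDiffOn ℝ ∞ φ U
  v : ℝ → Fin n → ℝ
  ψ : ℝ × Cn n → ℝ
  W : Set (ℝ × Cn n)
  isOpen_W : IsOpen W
  sub_W : Ico 0 T ×ˢ univ ⊆ W
  smooth_ψ : ContDiffOn ℝ ∞ ψ W
  eqn : ∀ t ∈ Ico 0 T, ∀ ζ : Cn n, φ (t, cpt F σ ζ) = ∑ k, v t k * ζ.1 k + ψ (t, cexp ζ)
  pos : ∀ t ∈ Ico 0 T, ∀ z : Cn n, (cHess ψ (t, z)).PosDef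

theorem exists_chartG {F : SmoothCompleteFan n ι} {T : ℝ} {φ : ℝ × Cn n → ℝ}
    (h : IsKahlerFamily F T φ) {σ : Fin n → ι} (hσ : σ ∈ F.cones) :
    Nonempty (ChartG F T φ σ) := by
  obtain ⟨U, hU, hsub, hφ⟩ := h.smooth
  obtain ⟨v, ψ, ⟨W, hW, hsubW, hψ⟩, h1, h2⟩ := h.extends_chart σ hσ
  exact ⟨⟨hσ, U, hU, hsub, hφ, v, ψ, W, hW, hsubW, hψ, h1, h2⟩⟩

namespace ChartG

variable {F : SmoothCompleteFan n ι} {T : ℝ} {φ : ℝ × Cn n → ℝ} {σ : Fin n → ι}
  (d : ChartG F T φ σ)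

theorem mem_W {t : ℝ} (ht : t ∈ Ico 0 T) (z : Cn n) : (t, z) ∈ d.W := d.sub_W ⟨ht, mem_univ _⟩

theorem mem_U {t : ℝ} (ht : t ∈ Ico 0 T) (z : Cn n) : (t, z) ∈ d.U := d.sub_U ⟨ht, mem_univ _⟩

/-- The Levi form of `φ` in a chart. -/
theorem lev_eq {t : ℝ} (ht : t ∈ Ico 0 T) (ζ u : Cn n) :
    lev φ (cpt F σ u) (t, cpt F σ ζ) = lev d.ψ (cmul (cexp ζ) u) (t, cexp ζ) := by
  have hφ : ContDiff ℝ ∞ fun y => φ (t, y) := contDiff_slice d.isOpen_U d.smooth_φ (d.mem_U ht)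
  have hψ : ContDiff ℝ ∞ fun y => d.ψ (t, y) := contDiff_slice d.isOpen_W d.smooth_ψ (d.mem_W ht)
  rw [lev_eq_lev0 d.isOpen_U d.smooth_φ (d.mem_U ht), lev_eq_lev0 d.isOpen_W d.smooth_ψ (d.mem_W ht),
    ← lev0_cexp hψ, ← cptL_apply, ← cptL_apply, ← lev0_comp_linear hφ (cptL F σ) (cptL_J F σ)]
  set L : Cn n →L[ℝ] ℝ := ∑ k, d.v t k •
    ((ContinuousLinearMap.proj (R := ℝ) (φ := fun _ : Fin n => ℝ) k).comp
      (ContinuousLinearMap.fst ℝ (Fin n → ℝ) (Fin n → ℝ))) with hL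
  have h1 : (fun ζ => φ (t, cptL F σ ζ)) = fun ζ => L ζ + d.ψ (t, cexp ζ) := by
    funext ζ
    rw [cptL_apply, d.eqn t ht]
    simp [hL]
  rw [h1]
  have h2 : ContDiff ℝ ∞ fun ζ : Cn n => d.ψ (t, cexp ζ) := by
    have h3 : ContDiff ℝ ∞ (cexp (n := n)) := by
      unfold cexp
      fun_prop
    exact hψ.comp h3
  exact lev0_add_linear h2 L u ζ

theorem exists_cpt (F : SmoothCompleteFan n ι) {σ : Fin n → ι} (hσ : σ ∈ F.cones) (w : Cn n) :
    ∃ ζ, cpt F σ ζ = w := by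
  obtain ⟨a, ha⟩ := F.exists_pt hσ w.1
  obtain ⟨b, hb⟩ := F.exists_pt hσ w.2
  exact ⟨(a, b), by simp [cpt, ha, hb]⟩

theorem exists_int (F : SmoothCompleteFan n ι) {σ : Fin n → ι} (hσ : σ ∈ F.cones)
    (m : Fin n → ℤ) : ∃ m' : Fin n → ℤ, F.pt σ (fun k => (m' k : ℝ)) = fun k => (m k : ℝ) := by
  have hu := F.unimodular σ hσ
  refine ⟨Matrix.vecMul m (Matrix.of fun k j => F.ray (σ k) j)⁻¹, ?_⟩
  set R : Matrix (Fin n) (Fin n) ℤ := Matrix.of fun k j => F.ray (σ k) j with hR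
  have h1 : Matrix.vecMul (Matrix.vecMul m R⁻¹) R = m := by
    rw [Matrix.vecMul_vecMul, Matrix.nonsing_inv_mul _ hu, Matrix.vecMul_one]
  ext j
  rw [F.pt_apply]
  have h2 := congrFun h1 j
  simp only [Matrix.vecMul, dotProduct] at h2 ⊢
  rw [← h2]
  push_cast
  simp [hR, SmoothCompleteFan.vec]

include d in
theorem periodic {t : ℝ} (ht : t ∈ Ico 0 T) (a b : Fin n → ℝ) (m : Fin n → ℤ) :
    φ (t, (a, fun j => b j + 2 * Real.pi * m j)) = φ (t, (a, b)) := by
  obtain ⟨ζ, hζ⟩ := exists_cpt F d.mem (a, b)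
  obtain ⟨m', hm'⟩ := exists_int F d.mem m
  have h1 : cpt F σ (ζ.1, fun j => ζ.2 j + 2 * Real.pi * m' j) =
      (a, fun j => b j + 2 * Real.pi * m j) := by
    have hfst : F.pt σ ζ.1 = a := congrArg Prod.fst hζ
    have hsnd : F.pt σ ζ.2 = b := congrArg Prod.snd hζ
    have h2 : F.pt σ (fun j => ζ.2 j + 2 * Real.pi * m' j) =
        F.pt σ ζ.2 + (2 * Real.pi) • F.pt σ (fun k => (m' k : ℝ)) := by
      rw [← F.ptL_apply, ← F.ptL_apply, ← F.ptL_apply, ← map_smul, ← map_add]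
      congr 1
    simp only [cpt, hfst, h2, hsnd, hm']
    ext j
    · rfl
    · simp
  have h3 : cexp (ζ.1, fun j => ζ.2 j + 2 * Real.pi * m' j) = cexp ζ := by
    have hc : ∀ j, Real.cos (ζ.2 j + 2 * Real.pi * m' j) = Real.cos (ζ.2 j) := fun j => by
      rw [mul_comm (2 * Real.pi)]
      exact Real.cos_add_int_mul_two_pi _ _
    have hs : ∀ j, Real.sin (ζ.2 j + 2 * Real.pi * m' j) = Real.sin (ζ.2 j) := fun j => by
      rw [mul_comm (2 * Real.pi)]
      exact Real.sin_add_int_mul_two_pi _ _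
    simp only [cexp, hc, hs]
  rw [← h1, ← hζ, d.eqn t ht, d.eqn t ht, h3]

end ChartG

end Pool.Agent.ToricKRF.G

end
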