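import Pool.Agent.Work.MP_a2bf38_gt.Fu.Z.Top
import Pool.Agent.Work.MP_a2bf38_gt.Fu.Ch.MainOf

/-!
# The diameter bound for semi-ample limit classes
-/

open scoped ContDiff ENNReal ComplexOrder Topology
open Set Filter Pool.Agent.ToricKRF Pool.Agent.ToricKRF.G Pool.Agent.KRFS

namespace Pool.Agent.KRFT

/-- The diameter of `(M, ω(t))` is bounded if the limit class is the pull-back of a Kähler class
under a holomorphic map with connected fibres. -/
theorem diam_bounded {M Z : Type} [tM : TopologicalSpace M] [CompactSpace M] [T2Space M]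
    [ConnectedSpace M] [tZ : TopologicalSpace Z] [T2Space Z] {n N : ℕ} {κ P : Type} {T : ℝ}
    {e : κ → OpenPartialHomeomorph M (Cn n)} {U : P → Set Z} {q : P → Z → Cn N}
    {O : P → Set (Cn N)} {K : P → Cn N → ℝ} {f : M → Z} {ψ : κ → ℝ × Cn n → ℝ}
    {Ω : κ → Cn n → ℝ} (he : IsAtlas e) (hZ : IsKahlerSpace U q O K) (hf : IsHolConn e U q f)
    (hψ : IsKRF e T ψ) (hlim : IsSemiampleLimit e U q f T ψ Ω K) :
    ⨆ t ∈ Ico 0 T, rdiam e ψ t < ⊤ := by
  have hc : CompactSpace Z := by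
    rw [← isCompact_univ_iff, ← hf.surj.range_eq]
    exact isCompact_range hf.cont
  obtain ⟨mM, hM, hlM⟩ := (isCoord_charts he).exists_metric
  obtain ⟨mZ, hZ', hlZ⟩ := hZ.isCoord.exists_metric
  subst hM
  subst hZ'
  refine KRFZ.diam_bounded_semiample he hlM (Z := Z) (U := U) (q := q) (O := O) (K := K) (f := f)
    (Ω := Ω) ?_ ?_ hψ ?_
  · exact ⟨hZ.isOpen, hZ.cover, hlZ, hZ.isOpen', hZ.mem, hZ.smooth, hZ.psh, hZ.compat⟩
  · exact ⟨hf.cont, hf.surj, hf.holo, hf.connected⟩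
  · exact ⟨hlim.volume, hlim.eq⟩

end Pool.Agent.KRFT
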